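import Mathlib

/-!
Geometry of immersed submanifolds and mean curvature flow in arbitrary codimension
(problem MP_b2fa09_gt): definitions used in the statement of the result.
-/

namespace Helper35.PI

open scoped ContDiff Manifold Topology ENNReal
open MeasureTheory Set Filter

/-- Euclidean space of dimension `k`. -/
abbrev EE (k : ℕ) : Type := EuclideanSpace ℝ (Fin k)

/-- The coordinate vector `e_i`. -/
noncomputable def ee {k : ℕ} (i : Fin k) : EE k := EuclideanSpace.single i (1 : ℝ)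

section Local

variable {n N : ℕ}

/-- The first derivative `∂_i f (x)`. -/
noncomputable def dv1 (f : EE n → EE N) (x : EE n) (i : Fin n) : EE N :=
  fderiv ℝ f x (ee i)

/-- The second derivative `∂_i ∂_j f (x)`. -/
noncomputable def dv2 (f : EE n → EE N) (x : EE n) (i j : Fin n) : EE N :=
  fderiv ℝ (fun y => fderiv ℝ f y (ee j)) x (ee i)

/-- The induced metric `g_ij = ⟨∂_i f, ∂_j f⟩`. -/
noncomputable def gram (f : EE n → EE N) (x : EE n) : Matrix (Fin n) (Fin n) ℝ :=
  Matrix.of fun i j => inner ℝ (dv1 f x i) (dv1 f x j)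

/-- The component of `v` normal to the tangent space spanned by the `∂_i f (x)`. -/
noncomputable def nrm (f : EE n → EE N) (x : EE n) (v : EE N) : EE N :=
  v - ∑ k, ∑ l, ((gram f x)⁻¹ k l * inner ℝ (v) (dv1 f x k)) • dv1 f x l

/-- The (vector valued) second fundamental form `A_ij`, the normal part of `∂_i ∂_j f`. -/
noncomputable def sff (f : EE n → EE N) (x : EE n) (i j : Fin n) : EE N :=
  nrm f x (dv2 f x i j)

/-- The mean curvature vector `H = g^ij A_ij`. -/
noncomputable def mcv (f : EE n → EE N) (x : EE n) : EE N :=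
  ∑ i, ∑ j, (gram f x)⁻¹ i j • sff f x i j

/-- `|A|^2 = g^ik g^jl ⟨A_ij, A_kl⟩`. -/
noncomputable def nsq (f : EE n → EE N) (x : EE n) : ℝ :=
  ∑ i, ∑ j, ∑ k, ∑ l,
    (gram f x)⁻¹ i k * (gram f x)⁻¹ j l * inner ℝ (sff f x i j) (sff f x k l)

end Local

section Flow

variable {n N : ℕ} {M : Type} [TopologicalSpace M] [ChartedSpace (EE n) M]

/-- The immersion `F(·,t)` read in the preferred chart around `p`. -/
noncomputable def loc (F : M → ℝ → EE N) (p : M) (t : ℝ) : EE n → EE N :=
  fun x => F ((chartAt (EE n) p).symm x) t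

/-- The mean curvature vector of `M_t` at the point `p`. -/
noncomputable def HH (F : M → ℝ → EE N) (p : M) (t : ℝ) : EE N :=
  mcv (loc (n := n) F p t) (chartAt (EE n) p p)

/-- `|A|^2` of `M_t` at the point `p`. -/
noncomputable def AA (F : M → ℝ → EE N) (p : M) (t : ℝ) : ℝ :=
  nsq (loc (n := n) F p t) (chartAt (EE n) p p)

/-- Smooth mean curvature flow on the time interval `(-∞,0)`: `F` is jointly smooth, each
`F(·,t)` is an immersion and `∂_t F = H`. -/
structure IsMCF (F : M → ℝ → EE N) : Prop where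
  smooth : ContMDiffOn ((𝓡 n).prod 𝓘(ℝ, ℝ)) 𝓘(ℝ, EE N) ∞
    (fun z : M × ℝ => F z.1 z.2) (univ ×ˢ Iio 0)
  imm : ∀ (p : M) (t : ℝ), t < 0 →
    LinearIndependent ℝ (fun i : Fin n => dv1 (loc (n := n) F p t) (chartAt (EE n) p p) i)
  flow : ∀ (p : M) (t : ℝ), t < 0 → HasDerivAt (fun τ => F p τ) (HH (n := n) F p t) t

/-- `M_t` is complete: every path in `M`, defined on `[0,1)`, whose image under `F(·,t)` has
finite length converges in `M`. -/
def IsCompleteAt (F : M → ℝ → EE N) (t : ℝ) : Prop :=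
  ∀ γ : ℝ → M, ContinuousOn γ (Ico 0 1) →
    BoundedVariationOn (fun s => F (γ s) t) (Ico 0 1) → ∃ q : M, Tendsto γ (𝓝[<] 1) (𝓝 q)

/-- Gaussian area of `M_t` with centre `x₀` and scale `lam` (up to the constant relating the
Hausdorff measure to `n`-dimensional area); points are counted with multiplicity. -/
noncomputable def gaussArea (n : ℕ) (F : M → ℝ → EE N) (t : ℝ) (x₀ : EE N) (lam : ℝ) : ℝ≥0∞ :=
  ENNReal.ofReal ((4 * Real.pi * lam) ^ (-(n : ℝ) / 2)) *
    ∫⁻ x, (((fun q => F q t) ⁻¹' {x}).encard : ℝ≥0∞) *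
      ENNReal.ofReal (Real.exp (-‖x - x₀‖ ^ 2 / (4 * lam))) ∂μH[(n : ℝ)]

/-- The class of ancient flows of the problem (for connected `M`): each `M_t` is complete, the
flow has finite entropy, and each `M_t` has curvature of polynomial growth. -/
structure AncientMCF (F : M → ℝ → EE N) : Prop where
  mcf : IsMCF (n := n) F
  complete : ∀ t < 0, IsCompleteAt F t
  entropy : ∃ C : ℝ≥0∞, C ≠ ⊤ ∧ ∀ t < 0, ∀ x₀ : EE N, ∀ lam : ℝ, 0 < lam →
    gaussArea n F t x₀ lam ≤ C
  growth : ∀ t < 0, ∃ C k : ℝ, ∀ p : M, AA (n := n) F p t ≤ C * (1 + ‖F p t‖) ^ k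

/-- Uniform `c`-pinching. -/
def Pinched (n : ℕ) {N : ℕ} {M : Type} [TopologicalSpace M] [ChartedSpace (EE n) M]
    (c : ℝ) (F : M → ℝ → EE N) : Prop :=
  ∃ ε > 0, ∀ (p : M) (t : ℝ), t < 0 → AA (n := n) F p t ≤ (c - ε) * ‖HH (n := n) F p t‖ ^ 2

/-- Codimension one: all `M_t` lie in one fixed affine subspace of dimension `n + 1`. -/
def CodimOne (n : ℕ) {N : ℕ} {M : Type} (F : M → ℝ → EE N) : Prop :=
  ∃ W : AffineSubspace ℝ (EE N), Module.finrank ℝ W.direction = n + 1 ∧
    ∀ (p : M) (t : ℝ), t < 0 → F p t ∈ W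

end Flow

/-- Every ancient, uniformly `c`-pinched flow of dimension `n` in the class (for every `N`) is
of codimension one. -/
def ForcesCodimOne (n : ℕ) (c : ℝ) : Prop :=
  ∀ (N : ℕ), n + 1 ≤ N → ∀ (M : Type) [TopologicalSpace M] [T2Space M]
    [SecondCountableTopology M] [ConnectedSpace M] [ChartedSpace (EE n) M]
    [IsManifold (𝓡 n) ∞ M] (F : M → ℝ → EE N),
    AncientMCF (n := n) F → Pinched n c F → CodimOne n F

/-- The sharp pinching constant `c^*(n)`, the supremum (in the extended reals) of the `c > 0`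
which force codimension one. -/
noncomputable def cStar (n : ℕ) : EReal :=
  sSup {x : EReal | ∃ c : ℝ, x = (c : EReal) ∧ 0 < c ∧ ForcesCodimOne n c}

/-- The constant `c_n = min (4/(3n), 3(n+1)/(2n(n+2)))` of the known result. -/
noncomputable def cOld (n : ℕ) : ℝ :=
  min (4 / (3 * n)) (3 * (n + 1) / (2 * n * (n + 2)))

end Helper35.PI
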