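import Mathlib
import Pool.Agent.Helper35.PI.Defs

/-!
Finite dimensional algebra behind the planarity estimate. `V = EE N`.
`A i j` : second fundamental form in an orthonormal tangent frame, `T i j k` its covariant
derivative (totally symmetric).  Normalised variables: `m` (scalar, symmetric, traceless),
`B` (vector, symmetric, traceless), `τ`, `θ` (totally symmetric).
-/

namespace Helper35.PI

open scoped BigOperators

variable {n N : ℕ}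

/-- symmetric scalar matrix -/
def SymS (m : Fin n → Fin n → ℝ) : Prop := ∀ i j, m i j = m j i
/-- traceless scalar matrix -/
def TrS (m : Fin n → Fin n → ℝ) : Prop := ∑ i, m i i = 0
/-- symmetric vector valued matrix -/
def SymV (B : Fin n → Fin n → EE N) : Prop := ∀ i j, B i j = B j i
/-- traceless vector valued matrix -/
def TrV (B : Fin n → Fin n → EE N) : Prop := ∑ i, B i i = 0
/-- totally symmetric scalar 3-tensor -/
def Sym3S (τ : Fin n → Fin n → Fin n → ℝ) : Prop :=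
  (∀ i j k, τ i j k = τ j i k) ∧ (∀ i j k, τ i j k = τ i k j)
/-- totally symmetric vector valued 3-tensor -/
def Sym3V (θ : Fin n → Fin n → Fin n → EE N) : Prop :=
  (∀ i j k, θ i j k = θ j i k) ∧ (∀ i j k, θ i j k = θ i k j)

/-- `δ_ij / n` -/
noncomputable def dl (i j : Fin n) : ℝ := if i = j then (1 : ℝ) / n else 0

/-- `s = |m|^2` -/
noncomputable def sq (m : Fin n → Fin n → ℝ) : ℝ := ∑ i, ∑ j, m i j ^ 2
/-- `r = |B|^2` -/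
noncomputable def rq (B : Fin n → Fin n → EE N) : ℝ := ∑ i, ∑ j, ‖B i j‖ ^ 2
/-- `y_k`, trace of `τ` -/
noncomputable def yv (τ : Fin n → Fin n → Fin n → ℝ) (k : Fin n) : ℝ := ∑ i, τ k i i
/-- `w_k`, trace of `θ` -/
noncomputable def wv (θ : Fin n → Fin n → Fin n → EE N) (k : Fin n) : EE N := ∑ i, θ k i i
/-- `V_kij = τ_kij - m_ij y_k - δ_ij y_k / n` -/
noncomputable def Vt (m : Fin n → Fin n → ℝ) (τ : Fin n → Fin n → Fin n → ℝ)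
    (k i j : Fin n) : ℝ := τ k i j - m i j * yv τ k - dl i j * yv τ k
/-- `U_kij = θ_kij - y_k B_ij - δ_ij w_k / n` -/
noncomputable def Ut (B : Fin n → Fin n → EE N) (τ : Fin n → Fin n → Fin n → ℝ)
    (θ : Fin n → Fin n → Fin n → EE N) (k i j : Fin n) : EE N :=
  θ k i j - yv τ k • B i j - dl i j • wv θ k
/-- `|V|^2` -/
noncomputable def Vq (m : Fin n → Fin n → ℝ) (τ : Fin n → Fin n → Fin n → ℝ) : ℝ :=
  ∑ k, ∑ i, ∑ j, Vt m τ k i j ^ 2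
/-- `|U|^2` -/
noncomputable def Uq (B : Fin n → Fin n → EE N) (τ : Fin n → Fin n → Fin n → ℝ)
    (θ : Fin n → Fin n → Fin n → EE N) : ℝ := ∑ k, ∑ i, ∑ j, ‖Ut B τ θ k i j‖ ^ 2
/-- `|w|^2` -/
noncomputable def wq (θ : Fin n → Fin n → Fin n → EE N) : ℝ := ∑ k, ‖wv θ k‖ ^ 2
/-- `|y|^2` -/
noncomputable def yq (τ : Fin n → Fin n → Fin n → ℝ) : ℝ := ∑ k, yv τ k ^ 2
/-- `⟨U, m ⊗ w⟩` -/
noncomputable def Umw (m : Fin n → Fin n → ℝ) (B : Fin n → Fin n → EE N)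
    (τ : Fin n → Fin n → Fin n → ℝ) (θ : Fin n → Fin n → Fin n → EE N) : ℝ :=
  ∑ k, ∑ i, ∑ j, m i j * inner ℝ (Ut B τ θ k i j) (wv θ k)
/-- `⟨V, B·w⟩` -/
noncomputable def VBw (m : Fin n → Fin n → ℝ) (B : Fin n → Fin n → EE N)
    (τ : Fin n → Fin n → Fin n → ℝ) (θ : Fin n → Fin n → Fin n → EE N) : ℝ :=
  ∑ k, ∑ i, ∑ j, Vt m τ k i j * inner ℝ (B i j) (wv θ k)
/-- `|B·w|^2` -/
noncomputable def Bw (B : Fin n → Fin n → EE N) (θ : Fin n → Fin n → Fin n → EE N) : ℝ :=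
  ∑ k, ∑ i, ∑ j, inner ℝ (B i j) (wv θ k) ^ 2
/-- `σ = Σ m_ij B_ij` -/
noncomputable def sg (m : Fin n → Fin n → ℝ) (B : Fin n → Fin n → EE N) : EE N :=
  ∑ i, ∑ j, m i j • B i j
/-- `P = |σ|^2` -/
noncomputable def Pq (m : Fin n → Fin n → ℝ) (B : Fin n → Fin n → EE N) : ℝ := ‖sg m B‖ ^ 2
/-- `Q = |[m,B]|^2` -/
noncomputable def Qc (m : Fin n → Fin n → ℝ) (B : Fin n → Fin n → EE N) : ℝ :=
  ∑ i, ∑ j, ‖∑ k, (m i k • B k j - m k j • B i k)‖ ^ 2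
/-- `S(B) = Σ_αβ ⟨B^α,B^β⟩^2 + |[B^α,B^β]|^2` -/
noncomputable def Sq (B : Fin n → Fin n → EE N) : ℝ :=
  ∑ i, ∑ j, ∑ k, ∑ l, (inner ℝ (B i j) (B k l) ^ 2
    + 2 * (inner ℝ (B i j) (B j k) * inner ℝ (B k l) (B l i)
      - inner ℝ (B i j) (B k l) * inner ℝ (B j k) (B l i)))
/-- half of `∇_k s` : `⟨m, V_k⟩ + ⟨σ, w_k⟩` -/
noncomputable def gsv (m : Fin n → Fin n → ℝ) (B : Fin n → Fin n → EE N)
    (τ : Fin n → Fin n → Fin n → ℝ) (θ : Fin n → Fin n → Fin n → EE N) (k : Fin n) : ℝ :=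
  (∑ i, ∑ j, m i j * Vt m τ k i j) + inner ℝ (sg m B) (wv θ k)
/-- half of `∇_k r` : `⟨B, U_k⟩ - ⟨σ, w_k⟩` -/
noncomputable def grv (m : Fin n → Fin n → ℝ) (B : Fin n → Fin n → EE N)
    (τ : Fin n → Fin n → Fin n → ℝ) (θ : Fin n → Fin n → Fin n → EE N) (k : Fin n) : ℝ :=
  (∑ i, ∑ j, inner ℝ (B i j) (Ut B τ θ k i j)) - inner ℝ (sg m B) (wv θ k)

/-- The gradient form
`G_ℓ = |U|^2 + ℓ|V|^2 - 2(1-ℓ)⟨U,m⊗w⟩ - 2(1-ℓ)⟨V,B·w⟩ - (1-ℓ)|B·w|^2 - (r+(2ℓ-1)s)|w|^2`. -/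
noncomputable def Gq (l : ℝ) (m : Fin n → Fin n → ℝ) (B : Fin n → Fin n → EE N)
    (τ : Fin n → Fin n → Fin n → ℝ) (θ : Fin n → Fin n → Fin n → EE N) : ℝ :=
  Uq B τ θ + l * Vq m τ - 2 * (1 - l) * Umw m B τ θ - 2 * (1 - l) * VBw m B τ θ
    - (1 - l) * Bw B θ - (rq B + (2 * l - 1) * sq m) * wq θ

/-- Gradient inequality `AI1` with constants `κ`, `κ₁ < κ`, penalty `K`, gain `ε`. -/
def AI1 (n N : ℕ) (κ κ₁ K ε : ℝ) : Prop :=
  ∀ (m : Fin n → Fin n → ℝ) (B : Fin n → Fin n → EE N)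
    (τ : Fin n → Fin n → Fin n → ℝ) (θ : Fin n → Fin n → Fin n → EE N),
    SymS m → TrS m → SymV B → TrV B → Sym3S τ → Sym3V θ → 0 < rq B → sq m + rq B ≤ κ₁ →
    ∀ l : ℝ, l = rq B / (κ - sq m) →
      ε * (Uq B τ θ + l * Vq m τ) ≤ Gq l m B τ θ
        + K / rq B * ∑ k, (grv m B τ θ k + l * gsv m B τ θ k) ^ 2

/-- Reaction inequality `AI2`. -/
def AI2 (n N : ℕ) (κ κ₁ δ : ℝ) : Prop :=
  ∀ (m : Fin n → Fin n → ℝ) (B : Fin n → Fin n → EE N),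
    SymS m → TrS m → SymV B → TrV B → 0 < rq B → sq m + rq B ≤ κ₁ →
    ∀ l : ℝ, l = rq B / (κ - sq m) →
      δ * rq B ≤ rq B * (sq m + 1 / n) - (1 + l) * Qc m B - 2 * l * Pq m B - Sq B

end Helper35.PI
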