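import Mathlib
import Pool.Agent.Helper35.PI.Alg

/-!
Definitions for the matrix inequality of Li-Li and for the evolution formulas.
-/

namespace Helper35.PI

open scoped BigOperators

variable {n N : ℕ}

/-- squared Frobenius norm of the commutator -/
noncomputable def cmq (X Y : Matrix (Fin n) (Fin n) ℝ) : ℝ :=
  ∑ i, ∑ j, (X * Y - Y * X) i j ^ 2
/-- squared Frobenius norm -/
noncomputable def fq (X : Matrix (Fin n) (Fin n) ℝ) : ℝ := ∑ i, ∑ j, X i j ^ 2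
/-- Frobenius inner product -/
noncomputable def ipm (X Y : Matrix (Fin n) (Fin n) ℝ) : ℝ := ∑ i, ∑ j, X i j * Y i j

/-- `κ_n = 2(n-1)/(n(n+10))` -/
noncomputable def kn (n : ℕ) : ℝ := 2 * ((n : ℝ) - 1) / (n * (n + 10))

/-- `z_n / n`, the improved pinching above `1/n`. -/
noncomputable def zn (n : ℕ) : ℝ :=
  if n ≤ 8 then ((n : ℝ) - 1) / (n * (n + 4)) else if n ≤ 12 then 3 / (5 * n) else 2 / (3 * n)

/-- heat part of `s` (see note): `D s + 2 y·∇s` with `χ² = |H|²` -/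
noncomputable def hsv (chi2 : ℝ) (m : Fin n → Fin n → ℝ) (B : Fin n → Fin n → EE N)
    (τ : Fin n → Fin n → Fin n → ℝ) (θ : Fin n → Fin n → Fin n → EE N) : ℝ :=
  2 * (-Vq m τ - 2 * VBw m B τ θ - Bw B θ - 2 * Umw m B τ θ + 2 * sq m * wq θ
    + chi2 * (2 * Pq m B + Qc m B)) + 4 * ∑ k, yv τ k * gsv m B τ θ k

/-- heat part of `r` : `D r + 2 y·∇r` -/
noncomputable def hrv (chi2 : ℝ) (m : Fin n → Fin n → ℝ) (B : Fin n → Fin n → EE N)
    (τ : Fin n → Fin n → Fin n → ℝ) (θ : Fin n → Fin n → Fin n → EE N) : ℝ :=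
  2 * (-Uq B τ θ + 2 * Umw m B τ θ + 2 * VBw m B τ θ + Bw B θ + (rq B - sq m) * wq θ
    - chi2 * (rq B * (sq m + 1 / n) - Qc m B - Sq B)) + 4 * ∑ k, yv τ k * grv m B τ θ k

/-- heat part of `log |H|²` -/
noncomputable def hlY (chi2 : ℝ) (m : Fin n → Fin n → ℝ)
    (τ : Fin n → Fin n → Fin n → ℝ) (θ : Fin n → Fin n → Fin n → EE N) : ℝ :=
  2 * chi2 * (1 / n + sq m) - 2 * wq θ + 2 * yq τ

/-! Unnormalised quantities of `(A,T)`. -/

/-- `H = Σ A_ii` -/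
noncomputable def Hv (A : Fin n → Fin n → EE N) : EE N := ∑ i, A i i
/-- `X = |A|²` -/
noncomputable def XX (A : Fin n → Fin n → EE N) : ℝ := ∑ i, ∑ j, ‖A i j‖ ^ 2
/-- `Y = |H|²` -/
noncomputable def YY (A : Fin n → Fin n → EE N) : ℝ := ‖Hv A‖ ^ 2
/-- `z_ij = ⟨A_ij, H⟩` -/
noncomputable def zz (A : Fin n → Fin n → EE N) (i j : Fin n) : ℝ := inner ℝ (A i j) (Hv A)
/-- `Z = Σ ⟨A_ij,H⟩²` -/
noncomputable def ZZ (A : Fin n → Fin n → EE N) : ℝ := ∑ i, ∑ j, zz A i j ^ 2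
/-- `η_k = ∇_k H = Σ_i T_iik` -/
noncomputable def et (T : Fin n → Fin n → Fin n → EE N) (k : Fin n) : EE N := ∑ i, T i i k
/-- gradient of `X` -/
noncomputable def gX (A : Fin n → Fin n → EE N) (T : Fin n → Fin n → Fin n → EE N)
    (k : Fin n) : ℝ := 2 * ∑ i, ∑ j, inner ℝ (A i j) (T i j k)
/-- gradient of `Y` -/
noncomputable def gY (A : Fin n → Fin n → EE N) (T : Fin n → Fin n → Fin n → EE N)
    (k : Fin n) : ℝ := 2 * inner ℝ (Hv A) (et T k)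
/-- `∇_k z_ij` -/
noncomputable def gz (A : Fin n → Fin n → EE N) (T : Fin n → Fin n → Fin n → EE N)
    (i j k : Fin n) : ℝ := inner ℝ (T i j k) (Hv A) + inner ℝ (A i j) (et T k)
/-- gradient of `Z` -/
noncomputable def gZ (A : Fin n → Fin n → EE N) (T : Fin n → Fin n → Fin n → EE N)
    (k : Fin n) : ℝ := 2 * ∑ i, ∑ j, zz A i j * gz A T i j k
/-- `(∂_t - Δ) X` -/
noncomputable def hX (A : Fin n → Fin n → EE N) (T : Fin n → Fin n → Fin n → EE N) : ℝ :=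
  -2 * (∑ i, ∑ j, ∑ k, ‖T i j k‖ ^ 2) + 2 * Sq A
/-- `(∂_t - Δ) Y` -/
noncomputable def hY (A : Fin n → Fin n → EE N) (T : Fin n → Fin n → Fin n → EE N) : ℝ :=
  -2 * (∑ k, ‖et T k‖ ^ 2) + 2 * ZZ A
/-- `(∂_t - Δ) Z` -/
noncomputable def hZ (A : Fin n → Fin n → EE N) (T : Fin n → Fin n → Fin n → EE N) : ℝ :=
  4 * (∑ i, ∑ j, ∑ k, ∑ a, inner ℝ (A i a) (A a k) * (zz A i j * zz A k j))
    - 4 * (∑ i, ∑ j, ∑ k, zz A i j * inner ℝ (T i j k) (et T k))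
    + 4 * ‖∑ i, ∑ j, zz A i j • A i j‖ ^ 2
    - 4 * (∑ i, ∑ j, ∑ a, ∑ b, zz A i j * zz A a b * inner ℝ (A a i) (A b j))
    - 2 * (∑ i, ∑ j, ∑ k, gz A T i j k ^ 2)

/-! The normalised variables attached to `(A,T)` with `H ≠ 0`. -/

/-- `m_ij = ⟨A_ij,H⟩/|H|² - δ_ij/n` -/
noncomputable def mA (A : Fin n → Fin n → EE N) (i j : Fin n) : ℝ := zz A i j / YY A - dl i j
/-- `B_ij = (A_ij - ⟨A_ij,H⟩H/|H|²)/|H|` -/
noncomputable def BA (A : Fin n → Fin n → EE N) (i j : Fin n) : EE N :=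
  (1 / ‖Hv A‖) • (A i j - (zz A i j / YY A) • Hv A)
/-- `τ_ijk = ⟨T_ijk,H⟩/|H|²` -/
noncomputable def tA (A : Fin n → Fin n → EE N) (T : Fin n → Fin n → Fin n → EE N)
    (i j k : Fin n) : ℝ := inner ℝ (T i j k) (Hv A) / YY A
/-- `θ_ijk = (T_ijk - ⟨T_ijk,H⟩H/|H|²)/|H|` -/
noncomputable def thA (A : Fin n → Fin n → EE N) (T : Fin n → Fin n → Fin n → EE N)
    (i j k : Fin n) : EE N :=
  (1 / ‖Hv A‖) • (T i j k - (inner ℝ (T i j k) (Hv A) / YY A) • Hv A)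

end Helper35.PI
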