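import Mathlib
import Pool.Agent.Helper35.PI.Alg2

/-!
Definitions for the geometric part (not used in the statement of the result).
-/

namespace Helper35.PI

open scoped ContDiff Manifold Topology ENNReal
open MeasureTheory Set Filter

section Local

variable {n N : ℕ}

/-- `Z = g^ik g^jl ⟨A_ij,H⟩⟨A_kl,H⟩` -/
noncomputable def zsq (f : EE n → EE N) (x : EE n) : ℝ :=
  ∑ i, ∑ j, ∑ k, ∑ l, (gram f x)⁻¹ i k * (gram f x)⁻¹ j l *
    (inner ℝ (sff f x i j) (mcv f x) * inner ℝ (sff f x k l) (mcv f x))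

/-- The `∂_i f (x)` are linearly independent. -/
def LI (f : EE n → EE N) (x : EE n) : Prop := LinearIndependent ℝ (fun i : Fin n => dv1 f x i)

variable {V : Type*} [NormedAddCommGroup V] [NormedSpace ℝ V]

/-- spatial derivative `∂_k φ` of a function on space time -/
noncomputable def jg (φ : EE n × ℝ → V) (z : EE n × ℝ) (k : Fin n) : V :=
  fderiv ℝ φ z (ee k, 0)

/-- time derivative -/
noncomputable def jt (φ : EE n × ℝ → V) (z : EE n × ℝ) : V := fderiv ℝ φ z (0, 1)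

/-- second spatial derivatives `∂_i ∂_j φ` -/
noncomputable def jgg (φ : EE n × ℝ → V) (z : EE n × ℝ) (i j : Fin n) : V :=
  jg (fun z' => jg φ z' j) z i

/-- third spatial derivatives `∂_i ∂_j ∂_k φ` -/
noncomputable def jggg (φ : EE n × ℝ → V) (z : EE n × ℝ) (i j k : Fin n) : V :=
  jg (fun z' => jgg φ z' j k) z i

/-- heat operator `∂_t φ - Σ_k ∂_k ∂_k φ` (flat Laplacian) -/
noncomputable def jh (φ : EE n × ℝ → V) (z : EE n × ℝ) : V := jt φ z - ∑ k, jgg φ z k k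

/-- graph parametrisation `x ↦ x₀ + L x + u(x,t)` -/
noncomputable def grf (x₀ : EE N) (L : EE n →ₗᵢ[ℝ] EE N) (u : EE n × ℝ → EE N) (t : ℝ) :
    EE n → EE N := fun x => x₀ + L x + u (x, t)

/-- `u` is a local graphical solution of mean curvature flow near `(0,t₀)` over the linear
space `L(ℝ^n)`, tangent to it at `(0,t₀)`. -/
structure GraphSol (x₀ : EE N) (L : EE n →ₗᵢ[ℝ] EE N) (u : EE n × ℝ → EE N) (t₀ : ℝ) :
    Prop where
  smooth : ContDiffAt ℝ ∞ u (0, t₀)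
  perp : ∀ᶠ z in 𝓝 ((0 : EE n), t₀), ∀ v : EE n, inner ℝ (u z) (L v) = 0
  u0 : u (0, t₀) = 0
  du0 : ∀ i : Fin n, jg u (0, t₀) i = 0
  pde : ∀ᶠ z in 𝓝 ((0 : EE n), t₀),
    jt u z = ∑ i, ∑ j, (gram (grf x₀ L u z.2) z.1)⁻¹ i j • jgg u z i j

/-- `|A|²` of the graph, as a function on space time -/
noncomputable def Xf (x₀ : EE N) (L : EE n →ₗᵢ[ℝ] EE N) (u : EE n × ℝ → EE N)
    (z : EE n × ℝ) : ℝ := nsq (grf x₀ L u z.2) z.1
/-- `|H|²` of the graph -/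
noncomputable def Yf (x₀ : EE N) (L : EE n →ₗᵢ[ℝ] EE N) (u : EE n × ℝ → EE N)
    (z : EE n × ℝ) : ℝ := ‖mcv (grf x₀ L u z.2) z.1‖ ^ 2
/-- `Z` of the graph -/
noncomputable def Zf (x₀ : EE N) (L : EE n →ₗᵢ[ℝ] EE N) (u : EE n × ℝ → EE N)
    (z : EE n × ℝ) : ℝ := zsq (grf x₀ L u z.2) z.1
/-- metric coefficients of the graph -/
noncomputable def Gf (x₀ : EE N) (L : EE n →ₗᵢ[ℝ] EE N) (u : EE n × ℝ → EE N) (i j : Fin n)
    (z : EE n × ℝ) : ℝ := gram (grf x₀ L u z.2) z.1 i j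
/-- inverse metric coefficients of the graph -/
noncomputable def GIf (x₀ : EE N) (L : EE n →ₗᵢ[ℝ] EE N) (u : EE n × ℝ → EE N) (i j : Fin n)
    (z : EE n × ℝ) : ℝ := (gram (grf x₀ L u z.2) z.1)⁻¹ i j
/-- `R_ijkl = ⟨A_ij, A_kl⟩` of the graph -/
noncomputable def Rf (x₀ : EE N) (L : EE n →ₗᵢ[ℝ] EE N) (u : EE n × ℝ → EE N)
    (i j k l : Fin n) (z : EE n × ℝ) : ℝ :=
  inner ℝ (sff (grf x₀ L u z.2) z.1 i j) (sff (grf x₀ L u z.2) z.1 k l)

end Local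

section Flow

variable {n N : ℕ} {M : Type} [TopologicalSpace M] [ChartedSpace (EE n) M]

/-- Auxiliary class: complete, of finite entropy, with
curvature of polynomial growth (locally uniformly in time). -/
structure AncientFlow (F : M → ℝ → EE N) : Prop where
  mcf : IsMCF (n := n) F
  complete : ∀ t < 0, IsCompleteAt F t
  entropy : ∃ C : ℝ≥0∞, C ≠ ⊤ ∧ ∀ t < 0, ∀ x₀ : EE N, ∀ lam : ℝ, 0 < lam →
    gaussArea n F t x₀ lam ≤ C
  growth : ∀ a b : ℝ, a < b → b < 0 → ∃ C k : ℝ, ∀ (p : M), ∀ t ∈ Icc a b,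
    AA (n := n) F p t ≤ C * (1 + ‖F p t‖) ^ k

/-- `Z` of `M_t` at `p` -/
noncomputable def ZF (F : M → ℝ → EE N) (p : M) (t : ℝ) : ℝ :=
  zsq (loc (n := n) F p t) (chartAt (EE n) p p)

/-- tangent space of `M_t` at `p` -/
noncomputable def TS (F : M → ℝ → EE N) (p : M) (t : ℝ) : Submodule ℝ (EE N) :=
  Submodule.span ℝ (range fun i : Fin n => dv1 (loc (n := n) F p t) (chartAt (EE n) p p) i)

/-- Near `(p₀,t₀)` the flow is a graph over its tangent space. -/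
def HasGChart (F : M → ℝ → EE N) (p₀ : M) (t₀ : ℝ) : Prop :=
  ∃ (L : EE n →ₗᵢ[ℝ] EE N) (u : EE n × ℝ → EE N) (θ : EE n × ℝ → M),
    GraphSol (F p₀ t₀) L u t₀ ∧ θ (0, t₀) = p₀ ∧ ContinuousAt θ (0, t₀) ∧
    LinearMap.range L.toLinearMap = TS (n := n) F p₀ t₀ ∧
    ∀ᶠ z in 𝓝 ((0 : EE n), t₀),
      F (θ z) z.2 = grf (F p₀ t₀) L u z.2 z.1 ∧
      HH (n := n) F (θ z) z.2 = mcv (grf (F p₀ t₀) L u z.2) z.1 ∧
      AA (n := n) F (θ z) z.2 = nsq (grf (F p₀ t₀) L u z.2) z.1 ∧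
      ZF (n := n) F (θ z) z.2 = zsq (grf (F p₀ t₀) L u z.2) z.1

/-- space time properness of the flow -/
def ProperST (F : M → ℝ → EE N) : Prop :=
  ∀ a b R : ℝ, a < b → b < 0 → IsCompact {z : M × ℝ | z.2 ∈ Icc a b ∧ ‖F z.1 z.2‖ ≤ R}

/-- `r = X/Y - Z/Y²` -/
noncomputable def rF (n : ℕ) {N : ℕ} {M : Type} [TopologicalSpace M] [ChartedSpace (EE n) M]
    (F : M → ℝ → EE N) (p : M) (t : ℝ) : ℝ :=
  AA (n := n) F p t / ‖HH (n := n) F p t‖ ^ 2
    - ZF (n := n) F p t / (‖HH (n := n) F p t‖ ^ 2) ^ 2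
/-- `s = Z/Y² - 1/n` -/
noncomputable def sF (n : ℕ) {N : ℕ} {M : Type} [TopologicalSpace M] [ChartedSpace (EE n) M]
    (F : M → ℝ → EE N) (p : M) (t : ℝ) : ℝ :=
  ZF (n := n) F p t / (‖HH (n := n) F p t‖ ^ 2) ^ 2 - 1 / n

/-- The localised logarithmic test function. -/
noncomputable def Lfun (n : ℕ) {N : ℕ} {M : Type} [TopologicalSpace M] [ChartedSpace (EE n) M]
    (F : M → ℝ → EE N) (κ : ℝ) (k : ℕ) (R T₀ : ℝ) (p : M) (t : ℝ) : ℝ :=
  2 * Real.log (R ^ 2 - ‖F p t‖ ^ 2 - 2 * n * (t - T₀)) + Real.log (t - T₀)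
    + k * (Real.log (rF n F p t) - Real.log (κ - sF n F p t - rF n F p t))
    + Real.log (‖HH (n := n) F p t‖ ^ 2)

end Flow

/-- Every ancient, uniformly `c`-pinched flow of dimension `n` in the class is of codimension
one. -/
def PlanarAt (n : ℕ) (c : ℝ) : Prop :=
  ∀ (N : ℕ), n + 1 ≤ N → ∀ (M : Type) [TopologicalSpace M] [T2Space M]
    [SecondCountableTopology M] [ConnectedSpace M] [ChartedSpace (EE n) M]
    [IsManifold (𝓡 n) ∞ M] (F : M → ℝ → EE N),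
    AncientFlow (n := n) F → Pinched n c F → CodimOne n F

/-- The supremum for the auxiliary class. -/
noncomputable def cstar (n : ℕ) : EReal :=
  sSup {x : EReal | ∃ c : ℝ, x = (c : EReal) ∧ 0 < c ∧ PlanarAt n c}

end Helper35.PI
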