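import Mathlib
import Pool.Agent.Helper35.PI.Alg2

/-!
Module statements, part 1 (algebra), project PI (MP_b2fa09_gt).
Proofs on paper: file PI-proofs.md of the team store. For each `StX` the module proves
`theorem hX' : StX` (name `h` followed by the name of the statement).
-/

namespace Helper35.PI

open scoped BigOperators

/-- LL1. star lemma -/
def StLL1 : Prop := ∀ (n : ℕ) (η : Fin n → ℝ), ∑ i, η i ^ 2 ≤ 1 →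
    ∑ i, ∑ j, (if i < j ∧ 1 < (η i - η j) ^ 2 then (η i - η j) ^ 2 - 1 else 0) ≤ 1

/-- LL2. key lemma -/
def StLL2 : Prop := ∀ (n p : ℕ) (X : Matrix (Fin n) (Fin n) ℝ), X.IsSymm →
    ∀ C : Fin p → Matrix (Fin n) (Fin n) ℝ, (∀ b, (C b).IsSymm) →
    (∀ a b, a ≠ b → ipm (C a) (C b) = 0) → ∀ μ : ℝ, 0 ≤ μ → (∀ b, fq (C b) ≤ μ) →
    ∑ b, cmq X (C b) ≤ fq X * (∑ b, fq (C b) + μ)

/-- LL3. orthogonal family -/
def StLL3 : Prop := ∀ (n p : ℕ) (C : Fin p → Matrix (Fin n) (Fin n) ℝ),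
    (∀ b, (C b).IsSymm) → (∀ a b, a ≠ b → ipm (C a) (C b) = 0) →
    ∑ a, ∑ b, cmq (C a) (C b) + ∑ a, fq (C a) ^ 2 ≤ 3 / 2 * (∑ a, fq (C a)) ^ 2

/-- LL4. the Li-Li inequality, vector valued form -/
def StLL4 : Prop := ∀ (n N : ℕ) (C : Fin n → Fin n → EE N), SymV C →
    Sq C ≤ 3 / 2 * rq C ^ 2

/-- QP. -/
def StQP : Prop := ∀ (n N : ℕ) (m : Fin n → Fin n → ℝ) (B : Fin n → Fin n → EE N),
    SymS m → SymV B → 2 * Pq m B + Qc m B ≤ 2 * sq m * rq B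

/-- LLA. Li-Li for the family `√t m, B` -/
def StLLA : Prop := ∀ (n N : ℕ) (m : Fin n → Fin n → ℝ) (B : Fin n → Fin n → EE N),
    SymS m → SymV B → ∀ t : ℝ, 0 ≤ t →
    2 * t * (Pq m B + Qc m B) + Sq B + t ^ 2 * sq m ^ 2 ≤ 3 / 2 * (t * sq m + rq B) ^ 2

/-- LOSS. -/
def StLOSS : Prop := ∀ (n N : ℕ) (m : Fin n → Fin n → ℝ) (B : Fin n → Fin n → EE N),
    SymS m → SymV B → ∀ l t : ℝ, 0 ≤ l → l ≤ 1 → 0 ≤ t → t ≤ (1 + l) / 2 →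
    (1 + l) * Qc m B + 2 * l * Pq m B + Sq B
      ≤ t ^ 2 / 2 * sq m ^ 2 + (2 + 2 * l - t) * sq m * rq B + 3 / 2 * rq B ^ 2

/-- RS. the scalar reaction inequality, all `n ≥ 2`. -/
def StRS : Prop := ∀ n : ℕ, 2 ≤ n → ∀ ε : ℝ, 0 < ε →
    ∃ δ > 0, ∀ s r l : ℝ, 0 ≤ s → 0 < r → s + r ≤ zn n - ε → l = r / (kn n - s) →
      0 ≤ l ∧ l ≤ 1 ∧ ∃ t, 0 ≤ t ∧ t ≤ (1 + l) / 2 ∧
      t ^ 2 / 2 * s ^ 2 + (2 + 2 * l - t) * s * r + 3 / 2 * r ^ 2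
        ≤ r * (s + 1 / n) - δ * r

/-- R2. the reaction inequality -/
def StR2 : Prop := ∀ n N : ℕ, 2 ≤ n → ∀ ε : ℝ, 0 < ε → ∃ δ > 0, AI2 n N (kn n) (zn n - ε) δ

/-- VP. vector part of a 3-tensor symmetric and traceless in its last two indices -/
def StVP : Prop := ∀ (n : ℕ), 2 ≤ n → ∀ (V : Type) [NormedAddCommGroup V]
    [InnerProductSpace ℝ V] (X : Fin n → Fin n → Fin n → V), (∀ k i j, X k i j = X k j i) →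
    (∀ k, ∑ i, X k i i = 0) →
    2 * (n : ℝ) / ((n + 2) * (n - 1)) * ∑ j, ‖∑ k, X k k j‖ ^ 2
      ≤ ∑ k, ∑ i, ∑ j, ‖X k i j‖ ^ 2

/-- OP1. operator norm of a traceless symmetric vector valued matrix on scalars -/
def StOP1 : Prop := ∀ (n : ℕ), 2 ≤ n → ∀ (V : Type) [NormedAddCommGroup V]
    [InnerProductSpace ℝ V] (B : Fin n → Fin n → V), (∀ i j, B i j = B j i) →
    (∑ i, B i i = 0) → ∀ y : Fin n → ℝ,
    ∑ j, ‖∑ k, y k • B j k‖ ^ 2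
      ≤ ((n : ℝ) - 1) / n * (∑ i, ∑ j, ‖B i j‖ ^ 2) * ∑ k, y k ^ 2

/-- OP2. adjoint -/
def StOP2 : Prop := ∀ (n : ℕ), 2 ≤ n → ∀ (V : Type) [NormedAddCommGroup V]
    [InnerProductSpace ℝ V] (B : Fin n → Fin n → V), (∀ i j, B i j = B j i) →
    (∑ i, B i i = 0) → ∀ w : Fin n → V,
    ∑ j, (∑ k, inner ℝ (B j k) (w k)) ^ 2
      ≤ ((n : ℝ) - 1) / n * (∑ i, ∑ j, ‖B i j‖ ^ 2) * ∑ k, ‖w k‖ ^ 2

/-- OP3. scalar matrix acting on vectors -/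
def StOP3 : Prop := ∀ (n : ℕ), 2 ≤ n → ∀ (V : Type) [NormedAddCommGroup V]
    [InnerProductSpace ℝ V] (m : Fin n → Fin n → ℝ), (∀ i j, m i j = m j i) →
    (∑ i, m i i = 0) → ∀ w : Fin n → V,
    ∑ j, ‖∑ k, m j k • w k‖ ^ 2
      ≤ ((n : ℝ) - 1) / n * (∑ i, ∑ j, m i j ^ 2) * ∑ k, ‖w k‖ ^ 2

/-- SI. scalar inequality: `p = (n-1)/n`, `α² = p s`, `b² = p r`, `r = l (κ - s)`. -/
def StSI : Prop := ∀ (n : ℕ), 2 ≤ n → ∀ (s r l α b W Y a₁ a₂ : ℝ), 0 ≤ s → 0 < r →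
    s + r < kn n → l = r / (kn n - s) → 0 ≤ α → α ^ 2 = ((n : ℝ) - 1) / n * s → 0 ≤ b →
    b ^ 2 = ((n : ℝ) - 1) / n * r → 0 ≤ W → 0 ≤ Y → 0 ≤ a₁ → 0 ≤ a₂ →
    (((n : ℝ) - 1) / n - (1 - l) * α) * W ≤ a₁ + b * Y →
    (((n : ℝ) - 1) / n - α) * Y ≤ a₂ + (1 - l) / l * b * W →
    ((n : ℝ) + 6) ^ 2 / ((n + 2) * (n + 10)) * ((l ^ 2 * s + (kn n - s)) * W ^ 2)
      ≤ 2 * (n : ℝ) / ((n + 2) * (n - 1)) * (a₁ ^ 2 + l * a₂ ^ 2)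

/-- R1. the gradient inequality -/
def StR1 : Prop := ∀ n N : ℕ, 2 ≤ n → ∀ κ₁ : ℝ, κ₁ < kn n → ∃ ε > 0, AI1 n N (kn n) κ₁ 0 ε

/-- KI. the key inequality. -/
def StKI : Prop := ∀ n N : ℕ, 2 ≤ n → ∀ κ κ₁ K ε δ : ℝ, κ₁ < κ → κ ≤ 1 → 0 ≤ K →
    0 < ε → 0 < δ → AI1 n N κ κ₁ K ε → AI2 n N κ κ₁ δ →
    ∃ k₀ : ℕ, ∀ k : ℕ, k₀ ≤ k → ∀ (chi2 : ℝ) (m : Fin n → Fin n → ℝ)
      (B : Fin n → Fin n → EE N) (τ : Fin n → Fin n → Fin n → ℝ)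
      (θ : Fin n → Fin n → Fin n → EE N) (z : Fin n → ℝ), 0 < chi2 →
      SymS m → TrS m → SymV B → TrV B → Sym3S τ → Sym3V θ → 0 < rq B → sq m + rq B ≤ κ₁ →
      (∀ j, (k : ℝ) * (2 * grv m B τ θ j / rq B
          + 2 * (gsv m B τ θ j + grv m B τ θ j) / (κ - sq m - rq B)) + 2 * yv τ j + z j = 0) →
      (k : ℝ) * (hrv chi2 m B τ θ / rq B + (∑ j, (2 * grv m B τ θ j) ^ 2) / rq B ^ 2
          + (hsv chi2 m B τ θ + hrv chi2 m B τ θ) / (κ - sq m - rq B)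
          - (∑ j, (2 * (gsv m B τ θ j + grv m B τ θ j)) ^ 2) / (κ - sq m - rq B) ^ 2)
        + hlY chi2 m τ θ ≤ -chi2 + 3 * ∑ j, z j ^ 2

/-- E1. algebraic facts on the normalised variables. -/
def StE1 : Prop := ∀ (n N : ℕ), 1 ≤ n → ∀ (A : Fin n → Fin n → EE N)
    (T : Fin n → Fin n → Fin n → EE N), SymV A → Sym3V T → 0 < YY A →
    SymS (mA A) ∧ TrS (mA A) ∧ SymV (BA A) ∧ TrV (BA A) ∧ Sym3S (tA A T) ∧ Sym3V (thA A T)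
    ∧ XX A = YY A * (1 / n + sq (mA A) + rq (BA A))
    ∧ ZZ A = YY A ^ 2 * (1 / n + sq (mA A))
    ∧ (∀ k, gY A T k = YY A * (2 * yv (tA A T) k))

/-- E2. gradients of `s = Z/Y² - 1/n` and `r = X/Y - Z/Y²`. -/
def StE2 : Prop := ∀ (n N : ℕ), 1 ≤ n → ∀ (A : Fin n → Fin n → EE N)
    (T : Fin n → Fin n → Fin n → EE N), SymV A → Sym3V T → 0 < YY A → ∀ k : Fin n,
    gZ A T k / YY A ^ 2 - 2 * ZZ A * gY A T k / YY A ^ 3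
      = 2 * gsv (mA A) (BA A) (tA A T) (thA A T) k ∧
    gX A T k / YY A - XX A * gY A T k / YY A ^ 2
        - (gZ A T k / YY A ^ 2 - 2 * ZZ A * gY A T k / YY A ^ 3)
      = 2 * grv (mA A) (BA A) (tA A T) (thA A T) k

/-- E3. heat of `log Y`. -/
def StE3 : Prop := ∀ (n N : ℕ), 1 ≤ n → ∀ (A : Fin n → Fin n → EE N)
    (T : Fin n → Fin n → Fin n → EE N), SymV A → Sym3V T → 0 < YY A →
    hY A T / YY A + (∑ k, gY A T k ^ 2) / YY A ^ 2 = hlY (YY A) (mA A) (tA A T) (thA A T)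

/-- E4. heat of `s`. -/
def StE4 : Prop := ∀ (n N : ℕ), 1 ≤ n → ∀ (A : Fin n → Fin n → EE N)
    (T : Fin n → Fin n → Fin n → EE N), SymV A → Sym3V T → 0 < YY A →
    hZ A T / YY A ^ 2 - 2 * ZZ A * hY A T / YY A ^ 3
      + 4 * (∑ k, gZ A T k * gY A T k) / YY A ^ 3 - 6 * ZZ A * (∑ k, gY A T k ^ 2) / YY A ^ 4
      = hsv (YY A) (mA A) (BA A) (tA A T) (thA A T)

/-- E5. heat of `r + s`. -/
def StE5 : Prop := ∀ (n N : ℕ), 1 ≤ n → ∀ (A : Fin n → Fin n → EE N)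
    (T : Fin n → Fin n → Fin n → EE N), SymV A → Sym3V T → 0 < YY A →
    hX A T / YY A - XX A * hY A T / YY A ^ 2
      + 2 * (∑ k, gX A T k * gY A T k) / YY A ^ 2 - 2 * XX A * (∑ k, gY A T k ^ 2) / YY A ^ 3
      = hsv (YY A) (mA A) (BA A) (tA A T) (thA A T)
        + hrv (YY A) (mA A) (BA A) (tA A T) (thA A T)

end Helper35.PI
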