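import Mathlib
import Pool.Agent.Helper35.PI.Geo
import Pool.Agent.Helper35.PI.St1

/-!
Module statements, part 2 (jets, graphs, maximum principle), project PI (MP_b2fa09_gt).
For each `StX` the module proves `theorem hX : StX` (with earlier statements as hypotheses
where the note says so). Proofs on paper: PI-proofs2.md of the team store.
-/

namespace Helper35.PI

open scoped ContDiff Manifold Topology ENNReal BigOperators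
open MeasureTheory Set Filter

/-! ### Jets -/

/-- JA. linearity and locality of `jg`, `jt`, `jgg`, `jh` -/
def StJA : Prop := ∀ (n : ℕ) (V : Type) [NormedAddCommGroup V] [NormedSpace ℝ V]
    (z : EE n × ℝ),
    (∀ φ ψ : EE n × ℝ → V, φ =ᶠ[𝓝 z] ψ → (∀ k, jg φ z k = jg ψ z k) ∧ jt φ z = jt ψ z ∧
      (∀ i j, jgg φ z i j = jgg ψ z i j) ∧ jh φ z = jh ψ z) ∧
    (∀ c : V, (∀ k, jg (fun _ : EE n × ℝ => c) z k = 0) ∧ jh (fun _ : EE n × ℝ => c) z = 0) ∧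
    (∀ φ ψ : EE n × ℝ → V, ContDiffAt ℝ 2 φ z → ContDiffAt ℝ 2 ψ z →
      (∀ k, jg (fun z => φ z + ψ z) z k = jg φ z k + jg ψ z k) ∧
      jh (fun z => φ z + ψ z) z = jh φ z + jh ψ z ∧
      (∀ k, jg (fun z => φ z - ψ z) z k = jg φ z k - jg ψ z k) ∧
      jh (fun z => φ z - ψ z) z = jh φ z - jh ψ z) ∧
    (∀ (φ : EE n × ℝ → V) (c : ℝ), ContDiffAt ℝ 2 φ z →
      (∀ k, jg (fun z => c • φ z) z k = c • jg φ z k) ∧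
      jh (fun z => c • φ z) z = c • jh φ z) ∧
    (∀ (m : ℕ) (φ : Fin m → EE n × ℝ → V), (∀ i, ContDiffAt ℝ 2 (φ i) z) →
      (∀ k, jg (fun z => ∑ i, φ i z) z k = ∑ i, jg (φ i) z k) ∧
      jh (fun z => ∑ i, φ i z) z = ∑ i, jh (φ i) z)

/-- JB. products -/
def StJB : Prop := ∀ (n N : ℕ) (z : EE n × ℝ),
    (∀ φ ψ : EE n × ℝ → ℝ, ContDiffAt ℝ 2 φ z → ContDiffAt ℝ 2 ψ z →
      (∀ k, jg (fun z => φ z * ψ z) z k = jg φ z k * ψ z + φ z * jg ψ z k) ∧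
      jh (fun z => φ z * ψ z) z = jh φ z * ψ z + φ z * jh ψ z - 2 * ∑ k, jg φ z k * jg ψ z k) ∧
    (∀ φ ψ : EE n × ℝ → EE N, ContDiffAt ℝ 2 φ z → ContDiffAt ℝ 2 ψ z →
      (∀ k, jg (fun z => (inner ℝ (φ z) (ψ z) : ℝ)) z k
        = inner ℝ (jg φ z k) (ψ z) + inner ℝ (φ z) (jg ψ z k)) ∧
      jh (fun z => (inner ℝ (φ z) (ψ z) : ℝ)) z
        = inner ℝ (jh φ z) (ψ z) + inner ℝ (φ z) (jh ψ z)
          - 2 * ∑ k, inner ℝ (jg φ z k) (jg ψ z k))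

/-- JD. logarithm and quotient -/
def StJD : Prop := ∀ (n : ℕ) (z : EE n × ℝ),
    (∀ φ : EE n × ℝ → ℝ, ContDiffAt ℝ 2 φ z → φ z ≠ 0 →
      (∀ k, jg (fun z => Real.log (φ z)) z k = jg φ z k / φ z) ∧
      jh (fun z => Real.log (φ z)) z = jh φ z / φ z + (∑ k, jg φ z k ^ 2) / φ z ^ 2) ∧
    (∀ φ ψ : EE n × ℝ → ℝ, ContDiffAt ℝ 2 φ z → ContDiffAt ℝ 2 ψ z → ψ z ≠ 0 →
      (∀ k, jg (fun z => φ z / ψ z) z k = jg φ z k / ψ z - φ z * jg ψ z k / ψ z ^ 2) ∧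
      jh (fun z => φ z / ψ z) z = jh φ z / ψ z - φ z * jh ψ z / ψ z ^ 2
        + 2 * (∑ k, jg φ z k * jg ψ z k) / ψ z ^ 2
        - 2 * φ z * (∑ k, jg ψ z k ^ 2) / ψ z ^ 3)

/-- MP. maximum principle at a point -/
def StMP : Prop := ∀ (n : ℕ) (x₀ : EE n) (t₀ : ℝ) (φ : EE n × ℝ → ℝ),
    ContDiffAt ℝ 2 φ (x₀, t₀) →
    (∀ᶠ z in 𝓝 (x₀, t₀), z.2 ≤ t₀ → φ z ≤ φ (x₀, t₀)) →
    (∀ k, jg φ (x₀, t₀) k = 0) ∧ 0 ≤ jh φ (x₀, t₀)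

/-! ### Linear algebra of the induced metric, smoothness -/

/-- FR. orthonormal frames: `g⁻¹ = P Pᵀ` -/
def StFR : Prop := ∀ (n N : ℕ) (f : EE n → EE N) (x : EE n), LI f x →
    (gram f x).PosDef ∧ IsUnit (gram f x).det ∧
    ∃ P : Matrix (Fin n) (Fin n) ℝ, (gram f x)⁻¹ = P * P.transpose ∧ IsUnit P.det ∧
      P.transpose * gram f x * P = 1 ∧
      (∀ a b : Fin n, (inner ℝ (∑ i, P i a • dv1 f x i) (∑ i, P i b • dv1 f x i) : ℝ)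
        = if a = b then 1 else 0) ∧
      (∀ X : Fin n → Fin n → EE N, ∑ i, ∑ j, (gram f x)⁻¹ i j • X i j
        = ∑ a, ∑ i, ∑ j, (P i a * P j a) • X i j) ∧
      (∀ X Y : Fin n → Fin n → ℝ,
        ∑ i, ∑ j, ∑ k, ∑ l, (gram f x)⁻¹ i k * (gram f x)⁻¹ j l * (X i j * Y k l)
          = ∑ a, ∑ b, (∑ i, ∑ j, P i a * P j b * X i j) * (∑ i, ∑ j, P i a * P j b * Y i j)) ∧
      (∀ X Y : Fin n → Fin n → EE N,
        ∑ i, ∑ j, ∑ k, ∑ l, (gram f x)⁻¹ i k * (gram f x)⁻¹ j l * inner ℝ (X i j) (Y k l)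
          = ∑ a, ∑ b, inner ℝ (∑ i, ∑ j, (P i a * P j b) • X i j)
              (∑ i, ∑ j, (P i a * P j b) • Y i j))

/-- NR. the normal projection -/
def StNR : Prop := ∀ (n N : ℕ) (f : EE n → EE N) (x : EE n), LI f x →
    (∀ v i, (inner ℝ (nrm f x v) (dv1 f x i) : ℝ) = 0) ∧
    (∀ v ∈ Submodule.span ℝ (range fun i => dv1 f x i), nrm f x v = 0) ∧
    (∀ v, v - nrm f x v ∈ Submodule.span ℝ (range fun i => dv1 f x i)) ∧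
    (∀ v, (∀ i, (inner ℝ v (dv1 f x i) : ℝ) = 0) → nrm f x v = v) ∧
    (∀ v w, nrm f x (v + w) = nrm f x v + nrm f x w) ∧
    (∀ (c : ℝ) v, nrm f x (c • v) = c • nrm f x v) ∧
    (∀ v w, (inner ℝ (nrm f x v) w : ℝ) = inner ℝ v (nrm f x w)) ∧
    (∀ v, ‖nrm f x v‖ ≤ ‖v‖)

/-- SM. smooth dependence of the geometric quantities on space and time -/
def StSM : Prop := ∀ (n N : ℕ) (f : EE n × ℝ → EE N) (z₀ : EE n × ℝ), ContDiffAt ℝ ∞ f z₀ →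
    LI (fun y => f (y, z₀.2)) z₀.1 →
    (∀ᶠ z in 𝓝 z₀, LI (fun y => f (y, z.2)) z.1 ∧ ContDiffAt ℝ 5 f z ∧
      (∀ i, dv1 (fun y => f (y, z.2)) z.1 i = jg f z i) ∧
      (∀ i j, dv2 (fun y => f (y, z.2)) z.1 i j = jgg f z i j) ∧
      (∀ i j, jgg f z i j = jgg f z j i)) ∧
    (∀ i, ContDiffAt ℝ ∞ (fun z => jg f z i) z₀) ∧ ContDiffAt ℝ ∞ (jt f) z₀ ∧
    (∀ i j, ContDiffAt ℝ ∞ (fun z => jgg f z i j) z₀) ∧
    (∀ i j, ContDiffAt ℝ ∞ (fun z => gram (fun y => f (y, z.2)) z.1 i j) z₀) ∧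
    (∀ i j, ContDiffAt ℝ ∞ (fun z => (gram (fun y => f (y, z.2)) z.1)⁻¹ i j) z₀) ∧
    (∀ i j, ContDiffAt ℝ ∞ (fun z => sff (fun y => f (y, z.2)) z.1 i j) z₀) ∧
    ContDiffAt ℝ ∞ (fun z => mcv (fun y => f (y, z.2)) z.1) z₀ ∧
    ContDiffAt ℝ ∞ (fun z => nsq (fun y => f (y, z.2)) z.1) z₀ ∧
    ContDiffAt ℝ ∞ (fun z => zsq (fun y => f (y, z.2)) z.1) z₀

/-! ### Graphs -/

/-- G0. jets of the inverse metric, via `g_ij = δ_ij + ⟨u_i, u_j⟩` -/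
def StG0 : Prop := ∀ (n N : ℕ) (x₀ : EE N) (L : EE n →ₗᵢ[ℝ] EE N) (u : EE n × ℝ → EE N)
    (t₀ : ℝ), GraphSol x₀ L u t₀ → ∀ i j : Fin n,
    ContDiffAt ℝ ∞ (GIf x₀ L u i j) (0, t₀) ∧
    GIf x₀ L u i j (0, t₀) = (if i = j then 1 else 0) ∧
    (∀ k, jg (GIf x₀ L u i j) (0, t₀) k = 0) ∧ jt (GIf x₀ L u i j) (0, t₀) = 0 ∧
    (∀ k l, jgg (GIf x₀ L u i j) (0, t₀) k l
      = -(inner ℝ (jgg u (0, t₀) k i) (jgg u (0, t₀) l j)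
          + inner ℝ (jgg u (0, t₀) l i) (jgg u (0, t₀) k j)))

/-- G1. symmetry and normality of the 2- and 3-jet -/
def StG1 : Prop := ∀ (n N : ℕ) (x₀ : EE N) (L : EE n →ₗᵢ[ℝ] EE N) (u : EE n × ℝ → EE N)
    (t₀ : ℝ), GraphSol x₀ L u t₀ →
    SymV (jgg u (0, t₀)) ∧ Sym3V (jggg u (0, t₀)) ∧
    (∀ i j v, (inner ℝ (jgg u (0, t₀) i j) (L v) : ℝ) = 0) ∧
    (∀ i j k v, (inner ℝ (jggg u (0, t₀) i j k) (L v) : ℝ) = 0)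

/-- G2. first and second derivatives and the metric of the graph -/
def StG2 : Prop := ∀ (n N : ℕ) (x₀ : EE N) (L : EE n →ₗᵢ[ℝ] EE N) (u : EE n × ℝ → EE N)
    (t₀ : ℝ), GraphSol x₀ L u t₀ →
    (∀ᶠ z in 𝓝 ((0 : EE n), t₀), (∀ i, dv1 (grf x₀ L u z.2) z.1 i = L (ee i) + jg u z i) ∧
      (∀ i j, dv2 (grf x₀ L u z.2) z.1 i j = jgg u z i j) ∧
      (∀ i j, Gf x₀ L u i j z = (if i = j then 1 else 0) + inner ℝ (jg u z i) (jg u z j)) ∧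
      (∀ i j v, (inner ℝ (jg u z i) (L v) : ℝ) = 0 ∧ (inner ℝ (jgg u z i j) (L v) : ℝ) = 0) ∧
      LI (grf x₀ L u z.2) z.1)

/-- G3. jets of the first derivatives -/
def StG3 : Prop := ∀ (n N : ℕ) (x₀ : EE N) (L : EE n →ₗᵢ[ℝ] EE N) (u : EE n × ℝ → EE N)
    (t₀ : ℝ), GraphSol x₀ L u t₀ →
    (∀ i, ContDiffAt ℝ 4 (fun z => jg u z i) (0, t₀) ∧
      jh (fun z => jg u z i) (0, t₀) = 0) ∧
    (∀ i j, ContDiffAt ℝ 4 (fun z => jgg u z i j) (0, t₀))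

/-- G4. heat of the second derivatives -/
def StG4 : Prop := ∀ (n N : ℕ) (x₀ : EE N) (L : EE n →ₗᵢ[ℝ] EE N) (u : EE n × ℝ → EE N)
    (t₀ : ℝ), GraphSol x₀ L u t₀ → ∀ i j,
    jh (fun z => jgg u z i j) (0, t₀)
      = (-2 : ℝ) • ∑ a, ∑ b, (inner ℝ (jgg u (0, t₀) a i) (jgg u (0, t₀) b j) : ℝ)
          • jgg u (0, t₀) a b

/-- G5. jets of the metric and its inverse -/
def StG5 : Prop := ∀ (n N : ℕ) (x₀ : EE N) (L : EE n →ₗᵢ[ℝ] EE N) (u : EE n × ℝ → EE N)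
    (t₀ : ℝ), GraphSol x₀ L u t₀ → ∀ i j : Fin n,
    ContDiffAt ℝ 4 (GIf x₀ L u i j) (0, t₀) ∧
    GIf x₀ L u i j (0, t₀) = (if i = j then 1 else 0) ∧
    (∀ k, jg (GIf x₀ L u i j) (0, t₀) k = 0) ∧
    jh (GIf x₀ L u i j) (0, t₀)
      = 2 * ∑ k, inner ℝ (jgg u (0, t₀) i k) (jgg u (0, t₀) j k)

/-- G6. jets of `R_ijkl = ⟨A_ij, A_kl⟩` -/
def StG6 : Prop := ∀ (n N : ℕ) (x₀ : EE N) (L : EE n →ₗᵢ[ℝ] EE N) (u : EE n × ℝ → EE N)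
    (t₀ : ℝ), GraphSol x₀ L u t₀ →
    ∀ (A : Fin n → Fin n → EE N) (T : Fin n → Fin n → Fin n → EE N),
    A = jgg u (0, t₀) → T = jggg u (0, t₀) → ∀ i j k l : Fin n,
    ContDiffAt ℝ 4 (Rf x₀ L u i j k l) (0, t₀) ∧
    Rf x₀ L u i j k l (0, t₀) = inner ℝ (A i j) (A k l) ∧
    (∀ m, jg (Rf x₀ L u i j k l) (0, t₀) m
      = inner ℝ (T i j m) (A k l) + inner ℝ (A i j) (T k l m)) ∧
    jh (Rf x₀ L u i j k l) (0, t₀)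
      = -2 * (∑ m, inner ℝ (T i j m) (T k l m))
        + 2 * (∑ a, ∑ b, inner ℝ (A i j) (A a b) * inner ℝ (A k l) (A a b))
        - 2 * (∑ a, ∑ b, inner ℝ (A a i) (A b j) * inner ℝ (A a b) (A k l))
        - 2 * (∑ a, ∑ b, inner ℝ (A a k) (A b l) * inner ℝ (A a b) (A i j))

/-- G7. jets of `X = |A|²` -/
def StG7 : Prop := ∀ (n N : ℕ) (x₀ : EE N) (L : EE n →ₗᵢ[ℝ] EE N) (u : EE n × ℝ → EE N)
    (t₀ : ℝ), GraphSol x₀ L u t₀ →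
    ∀ (A : Fin n → Fin n → EE N) (T : Fin n → Fin n → Fin n → EE N),
    A = jgg u (0, t₀) → T = jggg u (0, t₀) →
    ContDiffAt ℝ 3 (Xf x₀ L u) (0, t₀) ∧ Xf x₀ L u (0, t₀) = XX A ∧
    (∀ k, jg (Xf x₀ L u) (0, t₀) k = gX A T k) ∧ jh (Xf x₀ L u) (0, t₀) = hX A T

/-- G8. jets of `Y = |H|²` -/
def StG8 : Prop := ∀ (n N : ℕ) (x₀ : EE N) (L : EE n →ₗᵢ[ℝ] EE N) (u : EE n × ℝ → EE N)
    (t₀ : ℝ), GraphSol x₀ L u t₀ →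
    ∀ (A : Fin n → Fin n → EE N) (T : Fin n → Fin n → Fin n → EE N),
    A = jgg u (0, t₀) → T = jggg u (0, t₀) →
    ContDiffAt ℝ 3 (Yf x₀ L u) (0, t₀) ∧ Yf x₀ L u (0, t₀) = YY A ∧
    (∀ k, jg (Yf x₀ L u) (0, t₀) k = gY A T k) ∧ jh (Yf x₀ L u) (0, t₀) = hY A T

/-- G9. jets of `Z` -/
def StG9 : Prop := ∀ (n N : ℕ) (x₀ : EE N) (L : EE n →ₗᵢ[ℝ] EE N) (u : EE n × ℝ → EE N)
    (t₀ : ℝ), GraphSol x₀ L u t₀ →
    ∀ (A : Fin n → Fin n → EE N) (T : Fin n → Fin n → Fin n → EE N),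
    A = jgg u (0, t₀) → T = jggg u (0, t₀) →
    ContDiffAt ℝ 3 (Zf x₀ L u) (0, t₀) ∧ Zf x₀ L u (0, t₀) = ZZ A ∧
    (∀ k, jg (Zf x₀ L u) (0, t₀) k = gZ A T k) ∧ jh (Zf x₀ L u) (0, t₀) = hZ A T

/-- G10. the mean curvature vector of the graph at `(0,t₀)` and jets of the squared distance to
a moving point -/
def StG10 : Prop := ∀ (n N : ℕ) (x₀ : EE N) (L : EE n →ₗᵢ[ℝ] EE N) (u : EE n × ℝ → EE N)
    (t₀ : ℝ), GraphSol x₀ L u t₀ →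
    mcv (grf x₀ L u t₀) 0 = Hv (jgg u (0, t₀)) ∧
    ∀ (c : ℝ → EE N) (c' : EE N), ContDiffAt ℝ 2 c t₀ → HasDerivAt c c' t₀ →
      ContDiffAt ℝ 2 (fun z : EE n × ℝ => ‖grf x₀ L u z.2 z.1 - c z.2‖ ^ 2) (0, t₀) ∧
      (∀ k, jg (fun z : EE n × ℝ => ‖grf x₀ L u z.2 z.1 - c z.2‖ ^ 2) (0, t₀) k
        = 2 * inner ℝ (x₀ - c t₀) (L (ee k))) ∧
      jh (fun z : EE n × ℝ => ‖grf x₀ L u z.2 z.1 - c z.2‖ ^ 2) (0, t₀)
        = -2 * n - 2 * inner ℝ (x₀ - c t₀) c'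

/-! ### Invariance and charts -/

/-- I1. invariance under reparametrisation -/
def StI1 : Prop := ∀ (n N : ℕ) (f h : EE n → EE N) (φ : EE n → EE n) (x : EE n),
    ContDiffAt ℝ 2 f (φ x) → ContDiffAt ℝ 2 φ x → h =ᶠ[𝓝 x] (fun y => f (φ y)) → LI h x →
    LI f (φ x) ∧ mcv h x = mcv f (φ x) ∧ nsq h x = nsq f (φ x) ∧ zsq h x = zsq f (φ x) ∧
    Submodule.span ℝ (range fun i => dv1 h x i) = Submodule.span ℝ (range fun i => dv1 f (φ x) i)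

/-- I2. smoothness of the flow in a chart -/
def StI2 : Prop := ∀ (n N : ℕ) (M : Type) [TopologicalSpace M] [ChartedSpace (EE n) M]
    [IsManifold (𝓡 n) ∞ M] (F : M → ℝ → EE N), IsMCF (n := n) F → ∀ p₀ : M,
    ContDiffOn ℝ ∞ (fun z : EE n × ℝ => F ((chartAt (EE n) p₀).symm z.1) z.2)
      ((chartAt (EE n) p₀).target ×ˢ Iio 0)

/-- I3. the geometric quantities may be computed in any preferred chart -/
def StI3 : Prop := ∀ (n N : ℕ) (M : Type) [TopologicalSpace M] [ChartedSpace (EE n) M]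
    [IsManifold (𝓡 n) ∞ M] (F : M → ℝ → EE N), IsMCF (n := n) F → ∀ (p₀ q : M) (t : ℝ),
    t < 0 → q ∈ (chartAt (EE n) p₀).source →
    LI (loc (n := n) F p₀ t) (chartAt (EE n) p₀ q) ∧
    HH (n := n) F q t = mcv (loc (n := n) F p₀ t) (chartAt (EE n) p₀ q) ∧
    AA (n := n) F q t = nsq (loc (n := n) F p₀ t) (chartAt (EE n) p₀ q) ∧
    ZF (n := n) F q t = zsq (loc (n := n) F p₀ t) (chartAt (EE n) p₀ q) ∧
    TS (n := n) F q t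
      = Submodule.span ℝ (range fun i => dv1 (loc (n := n) F p₀ t) (chartAt (EE n) p₀ q) i)

/-- I4. continuity of the geometric quantities -/
def StI4 : Prop := ∀ (n N : ℕ) (M : Type) [TopologicalSpace M] [ChartedSpace (EE n) M]
    [IsManifold (𝓡 n) ∞ M] (F : M → ℝ → EE N), IsMCF (n := n) F →
    ContinuousOn (fun z : M × ℝ => F z.1 z.2) (univ ×ˢ Iio 0) ∧
    ContinuousOn (fun z : M × ℝ => HH (n := n) F z.1 z.2) (univ ×ˢ Iio 0) ∧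
    ContinuousOn (fun z : M × ℝ => AA (n := n) F z.1 z.2) (univ ×ˢ Iio 0) ∧
    ContinuousOn (fun z : M × ℝ => ZF (n := n) F z.1 z.2) (univ ×ˢ Iio 0)

/-- C1. a linear isometry onto the span of independent vectors -/
def StC1 : Prop := ∀ (n N : ℕ) (v : Fin n → EE N), LinearIndependent ℝ v →
    ∃ L : EE n →ₗᵢ[ℝ] EE N, LinearMap.range L.toLinearMap = Submodule.span ℝ (range v)

/-- C2. inverse function theorem: reparametrisation as a graph -/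
def StC2 : Prop := ∀ (n N : ℕ) (f : EE n × ℝ → EE N) (y₀ : EE n) (t₀ : ℝ)
    (L : EE n →ₗᵢ[ℝ] EE N), ContDiffAt ℝ ∞ f (y₀, t₀) →
    LI (fun y => f (y, t₀)) y₀ →
    LinearMap.range L.toLinearMap
      = Submodule.span ℝ (range fun i => dv1 (fun y => f (y, t₀)) y₀ i) →
    ∃ ψ : EE n × ℝ → EE n, ContDiffAt ℝ ∞ ψ (0, t₀) ∧ ψ (0, t₀) = y₀ ∧
      ∀ᶠ z in 𝓝 ((0 : EE n), t₀), ∀ v : EE n,
        (inner ℝ (f (ψ z, z.2) - f (y₀, t₀) - L z.1) (L v) : ℝ) = 0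

/-- C3. the reparametrised flow is a graphical solution -/
def StC3 : Prop := ∀ (n N : ℕ) (f : EE n × ℝ → EE N) (y₀ : EE n) (t₀ : ℝ)
    (L : EE n →ₗᵢ[ℝ] EE N) (ψ : EE n × ℝ → EE n), ContDiffAt ℝ ∞ f (y₀, t₀) →
    LI (fun y => f (y, t₀)) y₀ →
    LinearMap.range L.toLinearMap
      = Submodule.span ℝ (range fun i => dv1 (fun y => f (y, t₀)) y₀ i) →
    (∀ᶠ z in 𝓝 (y₀, t₀), jt f z = mcv (fun y => f (y, z.2)) z.1) →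
    ContDiffAt ℝ ∞ ψ (0, t₀) → ψ (0, t₀) = y₀ →
    (∀ᶠ z in 𝓝 ((0 : EE n), t₀), ∀ v : EE n,
        (inner ℝ (f (ψ z, z.2) - f (y₀, t₀) - L z.1) (L v) : ℝ) = 0) →
    ∀ u : EE n × ℝ → EE N, u = (fun z => f (ψ z, z.2) - f (y₀, t₀) - L z.1) →
    GraphSol (f (y₀, t₀)) L u t₀ ∧
    ∀ᶠ z in 𝓝 ((0 : EE n), t₀),
      grf (f (y₀, t₀)) L u z.2 z.1 = f (ψ z, z.2) ∧
      mcv (grf (f (y₀, t₀)) L u z.2) z.1 = mcv (fun y => f (y, z.2)) (ψ z) ∧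
      nsq (grf (f (y₀, t₀)) L u z.2) z.1 = nsq (fun y => f (y, z.2)) (ψ z) ∧
      zsq (grf (f (y₀, t₀)) L u z.2) z.1 = zsq (fun y => f (y, z.2)) (ψ z)

/-- C4. graph charts exist -/
def StC4 : Prop := ∀ (n N : ℕ) (M : Type) [TopologicalSpace M] [ChartedSpace (EE n) M]
    [IsManifold (𝓡 n) ∞ M] (F : M → ℝ → EE N), IsMCF (n := n) F → ∀ (p₀ : M) (t₀ : ℝ),
    t₀ < 0 → HasGChart (n := n) F p₀ t₀

/-! ### The localised maximum principle -/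

/-- The conclusion of `KI` for one exponent `k`. -/
def KIC (n N : ℕ) (κ κ₁ : ℝ) (k : ℕ) : Prop :=
  ∀ (chi2 : ℝ) (m : Fin n → Fin n → ℝ)
      (B : Fin n → Fin n → EE N) (τ : Fin n → Fin n → Fin n → ℝ)
      (θ : Fin n → Fin n → Fin n → EE N) (z : Fin n → ℝ), 0 < chi2 →
      SymS m → TrS m → SymV B → TrV B → Sym3S τ → Sym3V θ → 0 < rq B → sq m + rq B ≤ κ₁ →
      (∀ j, (k : ℝ) * (2 * grv m B τ θ j / rq B
          + 2 * (gsv m B τ θ j + grv m B τ θ j) / (κ - sq m - rq B)) + 2 * yv τ j + z j = 0) →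
      (k : ℝ) * (hrv chi2 m B τ θ / rq B + (∑ j, (2 * grv m B τ θ j) ^ 2) / rq B ^ 2
          + (hsv chi2 m B τ θ + hrv chi2 m B τ θ) / (κ - sq m - rq B)
          - (∑ j, (2 * (gsv m B τ θ j + grv m B τ θ j)) ^ 2) / (κ - sq m - rq B) ^ 2)
        + hlY chi2 m τ θ ≤ -chi2 + 3 * ∑ j, z j ^ 2

/-- MX1. jets of the logarithmic test function -/
def StMX1 : Prop := ∀ (n : ℕ) (z : EE n × ℝ) (X Y Z W : EE n × ℝ → ℝ) (κ T₀ : ℝ) (k : ℕ),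
    ContDiffAt ℝ 2 X z → ContDiffAt ℝ 2 Y z → ContDiffAt ℝ 2 Z z → ContDiffAt ℝ 2 W z →
    0 < Y z → 0 < W z → T₀ < z.2 →
    ∀ (s r hs hr : ℝ) (gs gr : Fin n → ℝ), s = Z z / Y z ^ 2 - 1 / n →
    r = X z / Y z - Z z / Y z ^ 2 → 0 < r → 0 < κ - s - r →
    (∀ j, gs j = jg Z z j / Y z ^ 2 - 2 * Z z * jg Y z j / Y z ^ 3) →
    (∀ j, gr j = jg X z j / Y z - X z * jg Y z j / Y z ^ 2 - gs j) →
    hs = jh Z z / Y z ^ 2 - 2 * Z z * jh Y z / Y z ^ 3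
      + 4 * (∑ j, jg Z z j * jg Y z j) / Y z ^ 3 - 6 * Z z * (∑ j, jg Y z j ^ 2) / Y z ^ 4 →
    hs + hr = jh X z / Y z - X z * jh Y z / Y z ^ 2
      + 2 * (∑ j, jg X z j * jg Y z j) / Y z ^ 2 - 2 * X z * (∑ j, jg Y z j ^ 2) / Y z ^ 3 →
    ∀ Lf : EE n × ℝ → ℝ, Lf = (fun z' => 2 * Real.log (W z') + Real.log (z'.2 - T₀)
      + k * (Real.log (X z' / Y z' - Z z' / Y z' ^ 2)
        - Real.log (κ - (Z z' / Y z' ^ 2 - 1 / n) - (X z' / Y z' - Z z' / Y z' ^ 2)))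
      + Real.log (Y z')) →
    ContDiffAt ℝ 2 Lf z ∧
    (∀ j, jg Lf z j = 2 * jg W z j / W z + k * (gr j / r + (gs j + gr j) / (κ - s - r))
      + jg Y z j / Y z) ∧
    jh Lf z = 2 * (jh W z / W z + (∑ j, jg W z j ^ 2) / W z ^ 2) + 1 / (z.2 - T₀)
      + k * (hr / r + (∑ j, gr j ^ 2) / r ^ 2 + (hs + hr) / (κ - s - r)
        - (∑ j, (gs j + gr j) ^ 2) / (κ - s - r) ^ 2)
      + (jh Y z / Y z + (∑ j, jg Y z j ^ 2) / Y z ^ 2)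

/-- MX. at a local maximum (in the past) of `Lfun` the curvature is controlled -/
def StMX : Prop := ∀ (n N : ℕ), 2 ≤ n → ∀ (κ κ₁ : ℝ) (k : ℕ), κ₁ < κ → KIC n N κ κ₁ k →
    ∀ (M : Type) [TopologicalSpace M] [ChartedSpace (EE n) M] [IsManifold (𝓡 n) ∞ M]
    (F : M → ℝ → EE N), IsMCF (n := n) F → ∀ (p₀ : M) (t₀ T₀ R : ℝ), t₀ < 0 → T₀ < t₀ →
    0 < R → HH (n := n) F p₀ t₀ ≠ 0 → 0 < rF n F p₀ t₀ → sF n F p₀ t₀ + rF n F p₀ t₀ ≤ κ₁ →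
    0 < R ^ 2 - ‖F p₀ t₀‖ ^ 2 - 2 * n * (t₀ - T₀) →
    (∀ᶠ z in 𝓝 (p₀, t₀), z.2 ≤ t₀ → Lfun n F κ k R T₀ z.1 z.2 ≤ Lfun n F κ k R T₀ p₀ t₀) →
    ‖HH (n := n) F p₀ t₀‖ ^ 2
      ≤ 56 * R ^ 2 / (R ^ 2 - ‖F p₀ t₀‖ ^ 2 - 2 * n * (t₀ - T₀)) ^ 2 + 1 / (t₀ - T₀)

/-- PO. pointwise algebraic facts on a flow -/
def StPO : Prop := ∀ (n N : ℕ), 1 ≤ n → ∀ (M : Type) [TopologicalSpace M]
    [ChartedSpace (EE n) M] [IsManifold (𝓡 n) ∞ M] (F : M → ℝ → EE N), IsMCF (n := n) F →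
    ∀ (p : M) (t : ℝ), t < 0 →
    0 ≤ AA (n := n) F p t ∧ 0 ≤ ZF (n := n) F p t ∧
    (‖HH (n := n) F p t‖ ^ 2) ^ 2 ≤ n * ZF (n := n) F p t ∧
    ZF (n := n) F p t ≤ AA (n := n) F p t * ‖HH (n := n) F p t‖ ^ 2 ∧
    ‖HH (n := n) F p t‖ ^ 2 ≤ n * AA (n := n) F p t ∧
    (∀ v ∈ TS (n := n) F p t, (inner ℝ (HH (n := n) F p t) v : ℝ) = 0)

/-- LOC. the local maximum principle: `Â = 0` -/
def StLOC : Prop := ∀ (n N : ℕ), 2 ≤ n → ∀ (κ κ₁ : ℝ) (k : ℕ), κ₁ < κ → 1 ≤ k →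
    KIC n N κ κ₁ k →
    ∀ (M : Type) [TopologicalSpace M] [T2Space M] [ChartedSpace (EE n) M]
    [IsManifold (𝓡 n) ∞ M] (F : M → ℝ → EE N), IsMCF (n := n) F → ProperST F →
    (∀ (p : M) (t : ℝ), t < 0 → AA (n := n) F p t ≤ (1 / n + κ₁) * ‖HH (n := n) F p t‖ ^ 2) →
    ∀ (p : M) (t : ℝ), t < 0 →
      AA (n := n) F p t * ‖HH (n := n) F p t‖ ^ 2 = ZF (n := n) F p t

end Helper35.PI
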