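import Mathlib
import Pool.Agent.Helper35.PI.St2

/-!
Module statements, part 3 (strong maximum principle, planarity, properness, main theorem),
project PI (MP_b2fa09_gt). Proofs on paper: PI-proofs2.md of the team store.
-/

namespace Helper35.PI

open scoped ContDiff Manifold Topology ENNReal BigOperators
open MeasureTheory Set Filter

/-! ### Strong maximum principle -/

/-- T3. the trace inequality for totally symmetric 3-tensors -/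
def StT3 : Prop := ∀ (n N : ℕ) (T : Fin n → Fin n → Fin n → EE N), Sym3V T →
    3 / ((n : ℝ) + 2) * ∑ k, ‖et T k‖ ^ 2 ≤ ∑ i, ∑ j, ∑ k, ‖T i j k‖ ^ 2

/-- SA. evolution inequality for `c|H|² - |A|²` -/
def StSA : Prop := ∀ (n N : ℕ) (A : Fin n → Fin n → EE N)
    (T : Fin n → Fin n → Fin n → EE N) (c ε : ℝ), SymV A → Sym3V T → 0 < ε → 0 ≤ c →
    c ≤ 3 / ((n : ℝ) + 2) → XX A ≤ (c - ε) * YY A →
    -(3 * c ^ 2 / ε) * YY A * (c * YY A - XX A) ≤ c * hY A T - hX A T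

/-- `g = c|H|² - |A|²` on a flow -/
noncomputable def gF (n : ℕ) {N : ℕ} {M : Type} [TopologicalSpace M] [ChartedSpace (EE n) M]
    (c : ℝ) (F : M → ℝ → EE N) (p : M) (t : ℝ) : ℝ :=
  c * ‖HH (n := n) F p t‖ ^ 2 - AA (n := n) F p t

/-- SB. at a local minimum (in the past) of `e^{Kt} g - e^{-αt} ε' ξ²`, with
`ξ = ρ² - |F - x_c(t)|²`, where the barrier is steep enough, one gets a contradiction. -/
def StSB : Prop := ∀ (n N : ℕ), 1 ≤ n → ∀ (M : Type) [TopologicalSpace M]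
    [ChartedSpace (EE n) M] [IsManifold (𝓡 n) ∞ M] (F : M → ℝ → EE N), IsMCF (n := n) F →
    ∀ (c ε K α e' ρ B : ℝ) (xc : ℝ → EE N) (xc' : EE N) (p₀ : M) (t₀ : ℝ),
    0 < ε → 0 ≤ c → c ≤ 3 / ((n : ℝ) + 2) → t₀ < 0 →
    (∀ (p : M) (t : ℝ), t < 0 → AA (n := n) F p t ≤ (c - ε) * ‖HH (n := n) F p t‖ ^ 2) →
    (3 * c ^ 2 / ε) * ‖HH (n := n) F p₀ t₀‖ ^ 2 ≤ K → 0 < e' → 0 < ρ →
    ContDiffAt ℝ 2 xc t₀ → HasDerivAt xc xc' t₀ → ‖xc'‖ ≤ B →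
    ‖F p₀ t₀ - xc t₀‖ < ρ →
    (∀ v ∈ (TS (n := n) F p₀ t₀)ᗮ, ‖v‖ = 1 →
      (inner ℝ (F p₀ t₀ - xc t₀) v : ℝ) ^ 2 ≤ ‖F p₀ t₀ - xc t₀‖ ^ 2 / 2) →
    ((n : ℝ) + ρ * B + 1) ^ 2 < α * ρ ^ 2 →
    ¬ (∀ᶠ z in 𝓝 (p₀, t₀), z.2 ≤ t₀ →
      Real.exp (K * t₀) * gF n c F p₀ t₀
          - e' * Real.exp (-α * t₀) * (ρ ^ 2 - ‖F p₀ t₀ - xc t₀‖ ^ 2) ^ 2
        ≤ Real.exp (K * z.2) * gF n c F z.1 z.2
          - e' * Real.exp (-α * z.2) * (ρ ^ 2 - ‖F z.1 z.2 - xc z.2‖ ^ 2) ^ 2)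

/-- SC1. uniform local geometry of the flow in a chart -/
def StSC1 : Prop := ∀ (n N : ℕ), 1 ≤ n → ∀ (M : Type) [TopologicalSpace M]
    [ChartedSpace (EE n) M] [IsManifold (𝓡 n) ∞ M] (F : M → ℝ → EE N), IsMCF (n := n) F →
    ∀ (q : M) (τ : ℝ), τ < 0 → ∃ r₂ δ c₀ : ℝ, 0 < r₂ ∧ 0 < δ ∧ τ + δ < 0 ∧ 0 < c₀ ∧
      Metric.closedBall (chartAt (EE n) q q) r₂ ⊆ (chartAt (EE n) q).target ∧
      ∀ t ∈ Icc (τ - δ) (τ + δ), ∀ y ∈ Metric.closedBall (chartAt (EE n) q q) r₂,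
      ∀ y' ∈ Metric.closedBall (chartAt (EE n) q q) r₂,
        c₀ * ‖y - y'‖ ≤ ‖F ((chartAt (EE n) q).symm y) t - F ((chartAt (EE n) q).symm y') t‖ ∧
        ∀ v ∈ (TS (n := n) F ((chartAt (EE n) q).symm y) t)ᗮ, ‖v‖ = 1 →
          (inner ℝ (F ((chartAt (EE n) q).symm y) t - F ((chartAt (EE n) q).symm y') t) v
              : ℝ) ^ 2
            ≤ ‖F ((chartAt (EE n) q).symm y) t - F ((chartAt (EE n) q).symm y') t‖ ^ 2 / 2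

/-- SC. positivity of `g` propagates locally -/
def StSC : Prop := ∀ (n N : ℕ), 1 ≤ n → ∀ (M : Type) [TopologicalSpace M] [T2Space M]
    [ChartedSpace (EE n) M] [IsManifold (𝓡 n) ∞ M] (F : M → ℝ → EE N), IsMCF (n := n) F →
    ∀ (c ε : ℝ), 0 < ε → 0 ≤ c → c ≤ 3 / ((n : ℝ) + 2) →
    (∀ (p : M) (t : ℝ), t < 0 → AA (n := n) F p t ≤ (c - ε) * ‖HH (n := n) F p t‖ ^ 2) →
    ∀ (q : M) (τ : ℝ), τ < 0 → ∃ O ∈ 𝓝 q, ∃ δ > 0, ∀ q₁ ∈ O, ∀ q₂ ∈ O, ∀ t₁ t₂ : ℝ,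
      τ - δ < t₁ → t₁ < t₂ → t₂ < τ + δ → t₂ < 0 → 0 < gF n c F q₁ t₁ → 0 < gF n c F q₂ t₂

/-- SMP. strong maximum principle -/
def StSMP : Prop := ∀ (n N : ℕ), 1 ≤ n → ∀ (M : Type) [TopologicalSpace M] [T2Space M]
    [ConnectedSpace M] [ChartedSpace (EE n) M] [IsManifold (𝓡 n) ∞ M] (F : M → ℝ → EE N),
    IsMCF (n := n) F → ∀ (c ε : ℝ), 0 < ε → 0 ≤ c → c ≤ 3 / ((n : ℝ) + 2) →
    (∀ (p : M) (t : ℝ), t < 0 → AA (n := n) F p t ≤ (c - ε) * ‖HH (n := n) F p t‖ ^ 2) →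
    ∀ (p₀ : M) (t₀ : ℝ), t₀ < 0 → HH (n := n) F p₀ t₀ = 0 →
    ∀ (p : M) (t : ℝ), t < t₀ → HH (n := n) F p t = 0

/-! ### Planarity -/

/-- GW. constancy of the span of a moving frame whose derivative lies in the span -/
def StGW : Prop := ∀ (N m : ℕ) (a b : ℝ) (e : Fin m → ℝ → EE N) (C : Fin m → Fin m → ℝ → ℝ)
    (B : ℝ), a ≤ b → (∀ i, ContinuousOn (e i) (Icc a b)) →
    (∀ i, ∀ s ∈ Ioo a b, HasDerivAt (e i) (∑ j, C i j s • e j s) s) →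
    (∀ i j, ∀ s ∈ Ioo a b, |C i j s| ≤ B) →
    ∀ v : EE N, ((∀ i, (inner ℝ (e i a) v : ℝ) = 0) ↔ (∀ i, (inner ℝ (e i b) v : ℝ) = 0))

/-- CZ. Codazzi: if `Â = 0` near `x`, the derivative of `H` stays in `span(∂_i f, H)` -/
def StCZ : Prop := ∀ (n N : ℕ) (f : EE n → EE N) (U : Set (EE n)), IsOpen U →
    ContDiffOn ℝ 3 f U →
    (∀ x ∈ U, LI f x ∧ mcv f x ≠ 0 ∧ nsq f x * ‖mcv f x‖ ^ 2 = zsq f x ∧
      nsq f x < ‖mcv f x‖ ^ 2) →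
    ∀ x ∈ U, ∀ l : Fin n,
      fderiv ℝ (mcv f) x (ee l)
        ∈ Submodule.span ℝ (range fun i => dv1 f x i) ⊔ Submodule.span ℝ {mcv f x} ∧
      ∀ i j : Fin n, dv2 f x i j
        ∈ Submodule.span ℝ (range fun i => dv1 f x i) ⊔ Submodule.span ℝ {mcv f x}

/-- `W = T ⊕ ℝ H` at a point of the flow -/
noncomputable def WS (n : ℕ) {N : ℕ} {M : Type} [TopologicalSpace M] [ChartedSpace (EE n) M]
    (F : M → ℝ → EE N) (p : M) (t : ℝ) : Submodule ℝ (EE N) :=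
  TS (n := n) F p t ⊔ Submodule.span ℝ {HH (n := n) F p t}

/-- PA. at a fixed time `W` does not depend on the point -/
def StPA : Prop := ∀ (n N : ℕ), 1 ≤ n → ∀ (M : Type) [TopologicalSpace M] [ConnectedSpace M]
    [ChartedSpace (EE n) M] [IsManifold (𝓡 n) ∞ M] (F : M → ℝ → EE N), IsMCF (n := n) F →
    ∀ t : ℝ, t < 0 →
    (∀ p : M, HH (n := n) F p t ≠ 0 ∧
      AA (n := n) F p t * ‖HH (n := n) F p t‖ ^ 2 = ZF (n := n) F p t ∧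
      AA (n := n) F p t < ‖HH (n := n) F p t‖ ^ 2) →
    ∀ p q : M, WS n F p t = WS n F q t

/-- PB. `W` does not depend on time -/
def StPB : Prop := ∀ (n N : ℕ), 1 ≤ n → ∀ (M : Type) [TopologicalSpace M] [ConnectedSpace M]
    [ChartedSpace (EE n) M] [IsManifold (𝓡 n) ∞ M] (F : M → ℝ → EE N), IsMCF (n := n) F →
    ∀ J : Set ℝ, IsOpen J → IsPreconnected J → J ⊆ Iio 0 →
    (∀ t ∈ J, ∀ p : M, HH (n := n) F p t ≠ 0) → (∀ t ∈ J, ∀ p q : M, WS n F p t = WS n F q t) →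
    ∀ t ∈ J, ∀ t' ∈ J, ∀ p : M, WS n F p t = WS n F p t'

/-- PL. planarity on a time interval -/
def StPL : Prop := ∀ (n N : ℕ), 1 ≤ n → ∀ (M : Type) [TopologicalSpace M] [ConnectedSpace M]
    [ChartedSpace (EE n) M] [IsManifold (𝓡 n) ∞ M] (F : M → ℝ → EE N), IsMCF (n := n) F →
    ∀ J : Set ℝ, IsOpen J → IsPreconnected J → J.Nonempty → J ⊆ Iio 0 →
    (∀ t ∈ J, ∀ p : M, HH (n := n) F p t ≠ 0 ∧
      AA (n := n) F p t * ‖HH (n := n) F p t‖ ^ 2 = ZF (n := n) F p t ∧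
      AA (n := n) F p t < ‖HH (n := n) F p t‖ ^ 2) →
    ∃ W : AffineSubspace ℝ (EE N), Module.finrank ℝ W.direction = n + 1 ∧
      ∀ t ∈ J, ∀ p : M, F p t ∈ W

/-- FL. the flat case -/
def StFL : Prop := ∀ (n N : ℕ), 1 ≤ n → n + 1 ≤ N → ∀ (M : Type) [TopologicalSpace M]
    [ConnectedSpace M] [ChartedSpace (EE n) M] [IsManifold (𝓡 n) ∞ M] (F : M → ℝ → EE N),
    IsMCF (n := n) F → (∀ (p : M) (t : ℝ), t < 0 → AA (n := n) F p t = 0) → CodimOne n F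

/-! ### Properness -/

/-- projection onto the tangent space, as a continuous linear map -/
noncomputable def Pr {n N : ℕ} (f : EE n → EE N) (x : EE n) : EE N →L[ℝ] EE N :=
  ∑ k, ∑ l, (gram f x)⁻¹ k l • (innerSL ℝ (dv1 f x k)).smulRight (dv1 f x l)

/-- DP. derivative of the tangential projection -/
def StDP : Prop := ∀ (n N : ℕ) (f : EE n → EE N) (x : EE n), ContDiffAt ℝ 2 f x → LI f x →
    DifferentiableAt ℝ (Pr f) x ∧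
    (∀ v, nrm f x v = v - Pr f x v) ∧
    (∀ v, Pr f x v = (Submodule.span ℝ (range fun i => dv1 f x i)).starProjection v) ∧
    ∀ ξ : EE n, ‖fderiv ℝ (Pr f) x ξ‖ ≤ Real.sqrt (nsq f x) * ‖fderiv ℝ f x ξ‖

/-- DL. lifting lemma for a local homeomorphism over a ball -/
def StDL : Prop := ∀ (n : ℕ) (M : Type) [TopologicalSpace M] [T2Space M] (O : Set M)
    (φ : M → EE n) (p : M) (ρ : ℝ), 0 < ρ → IsOpen O → p ∈ O → φ p = 0 →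
    (∀ q ∈ O, ∃ e : OpenPartialHomeomorph M (EE n), q ∈ e.source ∧ e.source ⊆ O ∧
      ∀ q' ∈ e.source, φ q' = e q') →
    (∀ x : EE n, ‖x‖ ≤ ρ → ∀ s : ℝ, 0 < s → s ≤ 1 → ∀ γ : ℝ → M, ContinuousOn γ (Ico 0 s) →
      γ 0 = p → (∀ σ ∈ Ico 0 s, γ σ ∈ O ∧ φ (γ σ) = σ • x) →
      ∃ q ∈ O, Tendsto γ (𝓝[<] s) (𝓝 q)) →
    ∃ S : EE n → M, ContinuousOn S (Metric.closedBall 0 ρ) ∧ S 0 = p ∧
      (∀ x ∈ Metric.closedBall (0 : EE n) ρ, S x ∈ O ∧ φ (S x) = x) ∧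
      (∀ ρ' ≤ ρ, IsOpen (S '' Metric.ball 0 ρ'))

/-- DE. length and tilt estimates along a lift of a segment -/
def StDE : Prop := ∀ (n N : ℕ), 1 ≤ n → ∀ (M : Type) [TopologicalSpace M] [T2Space M]
    [ChartedSpace (EE n) M] [IsManifold (𝓡 n) ∞ M] (F : M → ℝ → EE N), IsMCF (n := n) F →
    ∀ (t Λ ρ : ℝ) (p : M) (L : EE n →ₗᵢ[ℝ] EE N), t < 0 → 0 < Λ → 0 < ρ → ρ * Λ ≤ 1 / 16 →
    LinearMap.range L.toLinearMap = TS (n := n) F p t →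
    (∀ q : M, ‖F q t - F p t‖ ≤ 4 * ρ → AA (n := n) F q t ≤ Λ ^ 2) →
    ∀ x : EE n, ‖x‖ ≤ 2 * ρ → ∀ s : ℝ, 0 < s → s ≤ 1 → ∀ γ : ℝ → M,
    ContinuousOn γ (Ico 0 s) → γ 0 = p →
    (∀ σ ∈ Ico 0 s,
      ‖(TS (n := n) F (γ σ) t).starProjection - (TS (n := n) F p t).starProjection‖ < 1 / 2 ∧
      ∀ v : EE n, (inner ℝ (F (γ σ) t - F p t - σ • L x) (L v) : ℝ) = 0) →
    (∀ σ ∈ Ico 0 s, ∀ σ' ∈ Ico 0 s,
      ‖F (γ σ) t - F (γ σ') t‖ ≤ 2 * ‖x‖ * |σ - σ'| ∧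
      ‖(TS (n := n) F (γ σ) t).starProjection - (TS (n := n) F p t).starProjection‖ ≤ 1 / 4)

/-- DPA. uniform graphical patches on complete immersions -/
def StDPA : Prop := ∀ (n N : ℕ), 1 ≤ n → ∀ (M : Type) [TopologicalSpace M] [T2Space M]
    [ChartedSpace (EE n) M] [IsManifold (𝓡 n) ∞ M] (F : M → ℝ → EE N), IsMCF (n := n) F →
    ∀ (t Λ ρ : ℝ) (p : M) (L : EE n →ₗᵢ[ℝ] EE N), t < 0 → IsCompleteAt F t → 0 < Λ → 0 < ρ →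
    ρ * Λ ≤ 1 / 16 → LinearMap.range L.toLinearMap = TS (n := n) F p t →
    (∀ q : M, ‖F q t - F p t‖ ≤ 4 * ρ → AA (n := n) F q t ≤ Λ ^ 2) →
    ∃ S : EE n → M, ContinuousOn S (Metric.closedBall 0 (2 * ρ)) ∧ S 0 = p ∧
      (∀ x ∈ Metric.closedBall (0 : EE n) (2 * ρ), ‖F (S x) t - F p t‖ ≤ 2 * ‖x‖ ∧
        ∀ v : EE n, (inner ℝ (F (S x) t - F p t - L x) (L v) : ℝ) = 0) ∧
      (∀ ρ' ≤ 2 * ρ, IsOpen (S '' Metric.ball 0 ρ'))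

/-- DC. components of extrinsic balls are compact and have area bounded below -/
def StDC : Prop := ∀ (n N : ℕ), 1 ≤ n → ∀ (M : Type) [TopologicalSpace M] [T2Space M]
    [ChartedSpace (EE n) M] [IsManifold (𝓡 n) ∞ M] (F : M → ℝ → EE N), IsMCF (n := n) F →
    ∀ (t Λ ρ : ℝ) (p : M), t < 0 → IsCompleteAt F t → 0 < Λ → 0 < ρ → ρ * Λ ≤ 1 / 16 →
    (∀ q : M, ‖F q t - F p t‖ ≤ 4 * ρ → AA (n := n) F q t ≤ Λ ^ 2) →
    IsCompact (connectedComponentIn {q : M | ‖F q t - F p t‖ ≤ ρ} p) ∧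
    (μH[(n : ℝ)] (Metric.closedBall (0 : EE n) (ρ / 2))
      ≤ μH[(n : ℝ)] ((fun q => F q t) '' connectedComponentIn {q : M | ‖F q t - F p t‖ ≤ ρ} p))

/-- DA. finite entropy bounds the area in balls -/
def StDA : Prop := ∀ (n N : ℕ) (M : Type) [TopologicalSpace M] [ChartedSpace (EE n) M]
    (F : M → ℝ → EE N) (t R : ℝ) (C : ℝ≥0∞), C ≠ ⊤ →
    (∀ x₀ : EE N, ∀ lam : ℝ, 0 < lam → gaussArea n F t x₀ lam ≤ C) →
    ∫⁻ x in Metric.closedBall (0 : EE N) R,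
      (((fun q => F q t) ⁻¹' {x}).encard : ℝ≥0∞) ∂μH[(n : ℝ)] < ⊤

/-- DF. at each time the immersion is proper -/
def StDF : Prop := ∀ (n N : ℕ), 1 ≤ n → ∀ (M : Type) [TopologicalSpace M] [T2Space M]
    [ChartedSpace (EE n) M] [IsManifold (𝓡 n) ∞ M] (F : M → ℝ → EE N),
    AncientFlow (n := n) F → ∀ t R : ℝ, t < 0 → IsCompact {q : M | ‖F q t‖ ≤ R}

/-- DS. space time properness -/
def StDS : Prop := ∀ (n N : ℕ), 1 ≤ n → ∀ (M : Type) [TopologicalSpace M] [T2Space M]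
    [ChartedSpace (EE n) M] [IsManifold (𝓡 n) ∞ M] (F : M → ℝ → EE N),
    AncientFlow (n := n) F → ProperST F

/-! ### Main theorem -/

/-- MAINP. main theorem for space time proper flows -/
def StMAINP : Prop := ∀ (n : ℕ), 2 ≤ n → ∀ N : ℕ, n + 1 ≤ N → ∀ (M : Type)
    [TopologicalSpace M] [T2Space M] [ConnectedSpace M] [ChartedSpace (EE n) M]
    [IsManifold (𝓡 n) ∞ M] (F : M → ℝ → EE N), IsMCF (n := n) F → ProperST F →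
    Pinched n (1 / n + zn n) F → CodimOne n F

/-- NUM. numerical facts on the constants -/
def StNUM : Prop := ∀ n : ℕ, 2 ≤ n → 0 < zn n ∧ zn n ≤ kn n ∧ kn n ≤ 1 ∧ 0 < 1 / (n : ℝ) + zn n ∧
  1 / (n : ℝ) + zn n ≤ 3 / ((n : ℝ) + 2) ∧ 1 / (n : ℝ) + zn n ≤ 1 ∧
  cOld n < 1 / (n : ℝ) + zn n

/-- MAIN. -/
def StMAIN : Prop := ∀ n : ℕ, 2 ≤ n → PlanarAt n (1 / n + zn n)

end Helper35.PI
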