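import Mathlib
import Pool.Agent.Helper35.PI.St3

/-!
Module statements, part 4: the same theorems under the weaker assumption that nothing comes in
from infinity (right properness), project PI (MP_b2fa09_gt).
Proofs on paper: PI-proofs4.md of the team store.
-/

namespace Helper35.PI

open scoped ContDiff Manifold Topology ENNReal BigOperators
open MeasureTheory Set Filter

/-- Right properness: points which are in a ball at a time slightly after `t` lie in a compact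
subset of `M`. -/
def RProper {N : ℕ} {M : Type} [TopologicalSpace M] (F : M → ℝ → EE N) : Prop :=
  ∀ t R : ℝ, t < 0 → ∃ K : Set M, IsCompact K ∧ ∃ η > 0, ∀ s : ℝ, t ≤ s → s ≤ t + η → s < 0 →
    ∀ q : M, ‖F q s‖ ≤ R → q ∈ K

/-- LOCR. `LOC` under right properness -/
def StLOCR : Prop := ∀ (n N : ℕ), 2 ≤ n → ∀ (κ κ₁ : ℝ) (k : ℕ), κ₁ < κ → 1 ≤ k →
    KIC n N κ κ₁ k →
    ∀ (M : Type) [TopologicalSpace M] [T2Space M] [ChartedSpace (EE n) M]
    [IsManifold (𝓡 n) ∞ M] (F : M → ℝ → EE N), IsMCF (n := n) F → RProper F →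
    (∀ (p : M) (t : ℝ), t < 0 → AA (n := n) F p t ≤ (1 / n + κ₁) * ‖HH (n := n) F p t‖ ^ 2) →
    ∀ (p : M) (t : ℝ), t < 0 →
      AA (n := n) F p t * ‖HH (n := n) F p t‖ ^ 2 = ZF (n := n) F p t

/-- MAINR. main theorem for right proper flows -/
def StMAINR : Prop := ∀ (n : ℕ), 2 ≤ n → ∀ N : ℕ, n + 1 ≤ N → ∀ (M : Type)
    [TopologicalSpace M] [T2Space M] [ConnectedSpace M] [ChartedSpace (EE n) M]
    [IsManifold (𝓡 n) ∞ M] (F : M → ℝ → EE N), IsMCF (n := n) F → RProper F →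
    Pinched n (1 / n + zn n) F → CodimOne n F

/-! ### The literal class: polynomial growth at each time -/

/-- The class of flows with polynomial growth of curvature at each time. -/
structure AncientFlowL {n N : ℕ} {M : Type} [TopologicalSpace M] [ChartedSpace (EE n) M]
    (F : M → ℝ → EE N) : Prop where
  mcf : IsMCF (n := n) F
  complete : ∀ t < 0, IsCompleteAt F t
  entropy : ∃ C : ℝ≥0∞, C ≠ ⊤ ∧ ∀ t < 0, ∀ x₀ : EE N, ∀ lam : ℝ, 0 < lam →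
    gaussArea n F t x₀ lam ≤ C
  growth : ∀ t < 0, ∃ C k : ℝ, ∀ p : M, AA (n := n) F p t ≤ C * (1 + ‖F p t‖) ^ k

/-- DFL. at each time the immersion is proper (literal class) -/
def StDFL : Prop := ∀ (n N : ℕ), 1 ≤ n → ∀ (M : Type) [TopologicalSpace M] [T2Space M]
    [ChartedSpace (EE n) M] [IsManifold (𝓡 n) ∞ M] (F : M → ℝ → EE N),
    AncientFlowL (n := n) F → ∀ t R : ℝ, t < 0 → IsCompact {q : M | ‖F q t‖ ≤ R}

/-! ### Nothing comes in from infinity -/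

/-- area density `√det g` -/
noncomputable def sgm {n N : ℕ} (f : EE n → EE N) (y : EE n) : ℝ := Real.sqrt (gram f y).det

/-- V1. evolution of the area density -/
def StV1 : Prop := ∀ (n N : ℕ) (f : EE n × ℝ → EE N) (z₀ : EE n × ℝ), ContDiffAt ℝ ∞ f z₀ →
    LI (fun y => f (y, z₀.2)) z₀.1 →
    0 < sgm (fun y => f (y, z₀.2)) z₀.1 ∧
    ContDiffAt ℝ ∞ (fun z => sgm (fun y => f (y, z.2)) z.1) z₀ ∧
    ((∀ᶠ z in 𝓝 z₀, jt f z = mcv (fun y => f (y, z.2)) z.1) →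
      HasDerivAt (fun t => sgm (fun y => f (y, t)) z₀.1)
        (-‖mcv (fun y => f (y, z₀.2)) z₀.1‖ ^ 2 * sgm (fun y => f (y, z₀.2)) z₀.1) z₀.2)

/-- V2. the mean curvature vector in divergence form -/
def StV2 : Prop := ∀ (n N : ℕ) (f : EE n → EE N) (U : Set (EE n)), IsOpen U →
    ContDiffOn ℝ 3 f U → (∀ y ∈ U, LI f y) → ∀ y ∈ U,
    ∑ i, ∑ j, fderiv ℝ (fun y' => (sgm f y' * (gram f y')⁻¹ i j) • dv1 f y' j) y (ee i)
      = sgm f y • mcv f y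

/-- V3. first variation formula in a chart -/
def StV3 : Prop := ∀ (n N : ℕ) (f : EE n → EE N) (U : Set (EE n)), IsOpen U →
    ContDiffOn ℝ 3 f U → (∀ y ∈ U, LI f y) → ∀ X : EE n → EE N, ContDiff ℝ 1 X →
    HasCompactSupport X → tsupport X ⊆ U →
    ∫ y, ((∑ i, ∑ j, (gram f y)⁻¹ i j * inner ℝ (fderiv ℝ X y (ee i)) (dv1 f y j))
      + inner ℝ (mcv f y) (X y)) * sgm f y = 0

/-- V4. change of chart -/
def StV4 : Prop := ∀ (n N : ℕ) (M : Type) [TopologicalSpace M] [ChartedSpace (EE n) M]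
    [IsManifold (𝓡 n) ∞ M] (F : M → ℝ → EE N), IsMCF (n := n) F → ∀ (t : ℝ), t < 0 →
    ∀ p₁ p₂ : M,
    (∀ g : M → ℝ≥0∞, (∀ q, g q ≠ 0 →
        q ∈ (chartAt (EE n) p₁).source ∧ q ∈ (chartAt (EE n) p₂).source) →
      ∫⁻ y in (chartAt (EE n) p₁).target,
          g ((chartAt (EE n) p₁).symm y) * ENNReal.ofReal (sgm (loc (n := n) F p₁ t) y)
        = ∫⁻ y in (chartAt (EE n) p₂).target,
          g ((chartAt (EE n) p₂).symm y) * ENNReal.ofReal (sgm (loc (n := n) F p₂ t) y)) ∧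
    (∀ g : M → ℝ, (∀ q, g q ≠ 0 →
        q ∈ (chartAt (EE n) p₁).source ∧ q ∈ (chartAt (EE n) p₂).source) →
      ∫ y in (chartAt (EE n) p₁).target,
          g ((chartAt (EE n) p₁).symm y) * sgm (loc (n := n) F p₁ t) y
        = ∫ y in (chartAt (EE n) p₂).target,
          g ((chartAt (EE n) p₂).symm y) * sgm (loc (n := n) F p₂ t) y)

/-- A countable smooth partition of unity with compact supports in chart domains. -/
structure PU (n : ℕ) {M : Type} [TopologicalSpace M] [ChartedSpace (EE n) M]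
    (c : ℕ → M) (χ : ℕ → M → ℝ) : Prop where
  smooth : ∀ i, ContMDiff (𝓡 n) 𝓘(ℝ, ℝ) ∞ (χ i)
  nonneg : ∀ i q, 0 ≤ χ i q
  cpt : ∀ i, IsCompact (tsupport (χ i))
  sub : ∀ i, tsupport (χ i) ⊆ (chartAt (EE n) (c i)).source
  fin : LocallyFinite (fun i => tsupport (χ i))
  sum : ∀ q, HasSum (fun i => χ i q) 1

/-- V5. existence of partitions of unity -/
def StV5 : Prop := ∀ (n : ℕ) (M : Type) [TopologicalSpace M] [T2Space M]
    [SecondCountableTopology M] [Nonempty M] [ChartedSpace (EE n) M] [IsManifold (𝓡 n) ∞ M],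
    ∃ (c : ℕ → M) (χ : ℕ → M → ℝ), PU n c χ

/-- divergence along `M_t` of a field `X : M → EE N`, computed in the preferred chart at `q` -/
noncomputable def dvg {n N : ℕ} {M : Type} [TopologicalSpace M] [ChartedSpace (EE n) M]
    (F : M → ℝ → EE N) (X : M → EE N) (q : M) (t : ℝ) : ℝ :=
  ∑ i, ∑ j, (gram (loc (n := n) F q t) (chartAt (EE n) q q))⁻¹ i j *
    inner ℝ (fderiv ℝ (fun y => X ((chartAt (EE n) q).symm y)) (chartAt (EE n) q q) (ee i))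
      (dv1 (loc (n := n) F q t) (chartAt (EE n) q q) j)

/-- V6a. the divergence may be computed in any chart; product rule with functions -/
def StV6a : Prop := ∀ (n N : ℕ) (M : Type) [TopologicalSpace M] [ChartedSpace (EE n) M]
    [IsManifold (𝓡 n) ∞ M] (F : M → ℝ → EE N), IsMCF (n := n) F → ∀ (t : ℝ), t < 0 →
    ∀ (X : M → EE N) (p q : M), ContMDiffAt (𝓡 n) 𝓘(ℝ, EE N) 1 X q →
    q ∈ (chartAt (EE n) p).source →
    dvg (n := n) F X q t
      = ∑ i, ∑ j, (gram (loc (n := n) F p t) (chartAt (EE n) p q))⁻¹ i j *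
        inner ℝ (fderiv ℝ (fun y => X ((chartAt (EE n) p).symm y)) (chartAt (EE n) p q) (ee i))
          (dv1 (loc (n := n) F p t) (chartAt (EE n) p q) j)

/-- V6. first variation formula on `M_t` -/
def StV6 : Prop := ∀ (n N : ℕ) (M : Type) [TopologicalSpace M] [T2Space M]
    [ChartedSpace (EE n) M] [IsManifold (𝓡 n) ∞ M] (F : M → ℝ → EE N), IsMCF (n := n) F →
    ∀ (t : ℝ), t < 0 → ∀ (c : ℕ → M) (χ : ℕ → M → ℝ), PU n c χ →
    ∀ X : M → EE N, ContMDiff (𝓡 n) 𝓘(ℝ, EE N) 1 X → HasCompactSupport X →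
    ∀ s : Finset ℕ, (∀ i ∉ s, ∀ q ∈ tsupport X, χ i q = 0) →
    (∀ i, IntegrableOn (fun y => χ i ((chartAt (EE n) (c i)).symm y) *
        (dvg (n := n) F X ((chartAt (EE n) (c i)).symm y) t
          + inner ℝ (HH (n := n) F ((chartAt (EE n) (c i)).symm y) t)
              (X ((chartAt (EE n) (c i)).symm y))) * sgm (loc (n := n) F (c i) t) y)
        (chartAt (EE n) (c i)).target) ∧
    ∑ i ∈ s, ∫ y in (chartAt (EE n) (c i)).target, χ i ((chartAt (EE n) (c i)).symm y) *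
        (dvg (n := n) F X ((chartAt (EE n) (c i)).symm y) t
          + inner ℝ (HH (n := n) F ((chartAt (EE n) (c i)).symm y) t)
              (X ((chartAt (EE n) (c i)).symm y))) * sgm (loc (n := n) F (c i) t) y = 0

/-- area integral over `M_t` -/
noncomputable def Lam {n N : ℕ} {M : Type} [TopologicalSpace M] [ChartedSpace (EE n) M]
    (F : M → ℝ → EE N) (c : ℕ → M) (χ : ℕ → M → ℝ) (t : ℝ) (g : M → ℝ≥0∞) : ℝ≥0∞ :=
  ∑' i, ∫⁻ y in (chartAt (EE n) (c i)).target,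
    ENNReal.ofReal (χ i ((chartAt (EE n) (c i)).symm y)) * g ((chartAt (EE n) (c i)).symm y) *
      ENNReal.ofReal (sgm (loc (n := n) F (c i) t) y)

/-- V7. local comparison of area with Hausdorff measure -/
def StV7 : Prop := ∀ (n : ℕ), ∃ C : ℝ≥0∞, C ≠ ⊤ ∧ ∀ (N : ℕ) (f : EE n → EE N) (y₀ : EE n),
    ContDiffAt ℝ 1 f y₀ → LI f y₀ → ∃ δ > 0, InjOn f (Metric.ball y₀ δ) ∧
      ContinuousOn f (Metric.ball y₀ δ) ∧
      ∀ E ⊆ Metric.ball y₀ δ, MeasurableSet E →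
        ∫⁻ y in E, ENNReal.ofReal (sgm f y) ≤ C * μH[(n : ℝ)] (f '' E)

/-- V8. area in extrinsic balls is bounded by Hausdorff measure with multiplicity -/
def StV8 : Prop := ∀ (n : ℕ), ∃ C : ℝ≥0∞, C ≠ ⊤ ∧ ∀ (N : ℕ) (M : Type) [TopologicalSpace M]
    [T2Space M] [ChartedSpace (EE n) M] [IsManifold (𝓡 n) ∞ M] (F : M → ℝ → EE N),
    IsMCF (n := n) F → ∀ (t ρ : ℝ), t < 0 → IsCompact {q : M | ‖F q t‖ ≤ ρ} →
    ∀ (c : ℕ → M) (χ : ℕ → M → ℝ), PU n c χ →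
      Lam (n := n) F c χ t (indicator {q : M | ‖F q t‖ ≤ ρ} 1)
        ≤ C * ∫⁻ x in Metric.closedBall (0 : EE N) ρ,
            (((fun q => F q t) ⁻¹' {x}).encard : ℝ≥0∞) ∂μH[(n : ℝ)]

/-- V9. integration in time of a function with a sign changing derivative -/
def StV9 : Prop := ∀ (n : ℕ) (T : Set (EE n)), IsOpen T → ∀ χ : EE n → ℝ≥0∞,
    AEMeasurable χ (volume.restrict T) →
    ∀ (t₀ t₁ : ℝ), t₀ ≤ t₁ → ∀ (a b : EE n → ℝ → ℝ),
    (∀ y ∈ T, ∀ r ∈ Icc t₀ t₁, HasDerivAt (a y) (b y r) r) →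
    ContinuousOn (fun z : EE n × ℝ => b z.1 z.2) (T ×ˢ Icc t₀ t₁) →
    (∀ y ∈ T, a y t₀ = 0) → (∀ y ∈ T, 0 ≤ a y t₁) →
    (∫⁻ y in T, χ y * ENNReal.ofReal (a y t₁))
        + (∫⁻ r in Icc t₀ t₁, ∫⁻ y in T, χ y * ENNReal.ofReal (-b y r))
      = ∫⁻ r in Icc t₀ t₁, ∫⁻ y in T, χ y * ENNReal.ofReal (b y r)

/-- `w = (ρ² - |F|² - 2n(t - T₀))₊` -/
noncomputable def wN (n : ℕ) {N : ℕ} {M : Type} (F : M → ℝ → EE N) (ρ T₀ : ℝ) (q : M)
    (t : ℝ) : ℝ := max 0 (ρ ^ 2 - ‖F q t‖ ^ 2 - 2 * n * (t - T₀))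

/-- `h = -6 w² ⟨F,H⟩ - 6 n w² - |H|² w³` -/
noncomputable def hN (n : ℕ) {N : ℕ} {M : Type} [TopologicalSpace M] [ChartedSpace (EE n) M]
    (F : M → ℝ → EE N) (ρ T₀ : ℝ) (q : M) (t : ℝ) : ℝ :=
  -6 * wN n F ρ T₀ q t ^ 2 * inner ℝ (F q t) (HH (n := n) F q t)
    - 6 * n * wN n F ρ T₀ q t ^ 2 - ‖HH (n := n) F q t‖ ^ 2 * wN n F ρ T₀ q t ^ 3

/-- V10. pointwise facts on `h` -/
def StV10 : Prop := ∀ (n N : ℕ), 1 ≤ n → ∀ (M : Type) [TopologicalSpace M]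
    [ChartedSpace (EE n) M] [IsManifold (𝓡 n) ∞ M] (F : M → ℝ → EE N), IsMCF (n := n) F →
    ∀ (ρ T₀ : ℝ), 0 < ρ →
    (∀ (q : M) (t : ℝ), t < 0 → T₀ ≤ t → hN n F ρ T₀ q t ≤ 9 * ρ ^ 4 ∧
      (ρ < ‖F q t‖ → hN n F ρ T₀ q t = 0)) ∧
    ∀ (p : M),
      (∀ y ∈ (chartAt (EE n) p).target, ∀ t < 0,
        HasDerivAt (fun r => wN n F ρ T₀ ((chartAt (EE n) p).symm y) r ^ 3
            * sgm (loc (n := n) F p r) y)
          (hN n F ρ T₀ ((chartAt (EE n) p).symm y) t * sgm (loc (n := n) F p t) y) t) ∧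
      ContinuousOn (fun z : EE n × ℝ => hN n F ρ T₀ ((chartAt (EE n) p).symm z.1) z.2
        * sgm (loc (n := n) F p z.2) z.1) ((chartAt (EE n) p).target ×ˢ Iio 0)

/-- V11. the total of `h` over an open set with compact support is nonpositive -/
def StV11 : Prop := ∀ (n N : ℕ), 1 ≤ n → ∀ (M : Type) [TopologicalSpace M] [T2Space M]
    [ChartedSpace (EE n) M] [IsManifold (𝓡 n) ∞ M] (F : M → ℝ → EE N), IsMCF (n := n) F →
    ∀ (c : ℕ → M) (χ : ℕ → M → ℝ), PU n c χ → ∀ (O : Set M), IsOpen O →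
    ∀ (t T₀ ρ : ℝ), t < 0 →
    IsCompact {q : M | q ∈ O ∧ 0 ≤ ρ ^ 2 - ‖F q t‖ ^ 2 - 2 * n * (t - T₀)} →
    Lam (n := n) F c χ t (indicator O (fun q => ENNReal.ofReal (hN n F ρ T₀ q t)))
      ≤ Lam (n := n) F c χ t (indicator O (fun q => ENNReal.ofReal (-hN n F ρ T₀ q t)))

/-- DA2. finite entropy bounds the area in balls uniformly in time -/
def StDA2 : Prop := ∀ (n N : ℕ) (M : Type) [TopologicalSpace M] [ChartedSpace (EE n) M]
    (F : M → ℝ → EE N) (R : ℝ) (C : ℝ≥0∞), C ≠ ⊤ →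
    (∀ t < 0, ∀ x₀ : EE N, ∀ lam : ℝ, 0 < lam → gaussArea n F t x₀ lam ≤ C) →
    ∃ C' : ℝ≥0∞, C' ≠ ⊤ ∧ ∀ t < 0, ∫⁻ x in Metric.closedBall (0 : EE N) R,
      (((fun q => F q t) ⁻¹' {x}).encard : ℝ≥0∞) ∂μH[(n : ℝ)] ≤ C'

/-- NI. nothing comes in from infinity -/
def StNI : Prop := ∀ (n N : ℕ), 1 ≤ n → ∀ (M : Type) [TopologicalSpace M] [T2Space M]
    [SecondCountableTopology M] [Nonempty M] [ChartedSpace (EE n) M] [IsManifold (𝓡 n) ∞ M]
    (F : M → ℝ → EE N), IsMCF (n := n) F →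
    (∀ t R : ℝ, t < 0 → IsCompact {q : M | ‖F q t‖ ≤ R}) →
    (∀ R : ℝ, ∃ C : ℝ≥0∞, C ≠ ⊤ ∧ ∀ t < 0, ∫⁻ x in Metric.closedBall (0 : EE N) R,
      (((fun q => F q t) ⁻¹' {x}).encard : ℝ≥0∞) ∂μH[(n : ℝ)] ≤ C) →
    RProper F

end Helper35.PI
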