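import Pool.Agent.Helper35.PI.St2

namespace Helper35.PI

open scoped ContDiff Manifold Topology ENNReal BigOperators
open MeasureTheory Set Filter

theorem hC4 (_hSM : StSM) (hI2 : StI2) (hI3 : StI3) (hC1 : StC1) (hC2 : StC2) (hC3 : StC3) :
    StC4 := by
  intro n N M _ _ _ F hF p₀ t₀ ht₀
  set e := chartAt (EE n) p₀ with he
  set f : EE n × ℝ → EE N := fun z => F (e.symm z.1) z.2 with hf
  set y₀ : EE n := e p₀ with hy₀
  have hsm := hI2 n N M F hF p₀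
  have hopen : IsOpen (e.target ×ˢ Iio (0 : ℝ)) := e.open_target.prod isOpen_Iio
  have hy₀t : y₀ ∈ e.target := e.map_source (mem_chart_source (EE n) p₀)
  have hmem : (y₀, t₀) ∈ e.target ×ˢ Iio (0 : ℝ) := ⟨hy₀t, ht₀⟩
  have hfat : ∀ z ∈ e.target ×ˢ Iio (0 : ℝ), ContDiffAt ℝ ∞ f z := fun z hz =>
    (hsm z hz).contDiffAt (hopen.mem_nhds hz)
  have hLI : LI (fun y => f (y, t₀)) y₀ := hF.imm p₀ t₀ ht₀
  obtain ⟨L, hL⟩ := hC1 n N (fun i => dv1 (fun y => f (y, t₀)) y₀ i) hLI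
  obtain ⟨ψ, hψs, hψ0, hψe⟩ := hC2 n N f y₀ t₀ L (hfat _ hmem) hLI hL
  have hpde : ∀ᶠ z in 𝓝 (y₀, t₀), jt f z = mcv (fun y => f (y, z.2)) z.1 := by
    filter_upwards [hopen.mem_nhds hmem] with z hz
    have h1 : HasDerivAt (fun τ => F (e.symm z.1) τ) (HH (n := n) F (e.symm z.1) z.2) z.2 :=
      hF.flow _ _ hz.2
    have h2 : HasFDerivAt f (fderiv ℝ f z) z :=
      ((hfat z hz).differentiableAt (by simp)).hasFDerivAt
    have h3 : HasDerivAt (fun τ : ℝ => ((z.1, τ) : EE n × ℝ)) ((0 : EE n), (1 : ℝ)) z.2 :=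
      (hasDerivAt_const z.2 z.1).prodMk (hasDerivAt_id z.2)
    have h4 : HasDerivAt (fun τ : ℝ => f (z.1, τ)) (fderiv ℝ f z (0, 1)) z.2 :=
      HasFDerivAt.comp_hasDerivAt (f := fun τ : ℝ => ((z.1, τ) : EE n × ℝ)) z.2 h2 h3
    have h5 : jt f z = HH (n := n) F (e.symm z.1) z.2 := h4.unique h1
    have h6 := (hI3 n N M F hF p₀ (e.symm z.1) z.2 hz.2 (e.map_target hz.1)).2.1
    rw [h5, h6]
    have h7 : (chartAt (EE n) p₀) (e.symm z.1) = z.1 := e.right_inv hz.1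
    rw [h7]
    rfl
  obtain ⟨hG, hev⟩ := hC3 n N f y₀ t₀ L ψ (hfat _ hmem) hLI hL hpde hψs hψ0 hψe _ rfl
  have hfy : f (y₀, t₀) = F p₀ t₀ := by
    simp only [hf, hy₀]
    rw [e.left_inv (mem_chart_source (EE n) p₀)]
  simp only [hfy] at hG hev
  refine ⟨L, fun z => f (ψ z, z.2) - F p₀ t₀ - L z.1, fun z => e.symm (ψ z), hG, ?_, ?_, ?_, ?_⟩
  · show e.symm (ψ (0, t₀)) = p₀
    rw [hψ0, hy₀]; exact e.left_inv (mem_chart_source (EE n) p₀)
  · have : ContinuousAt e.symm (ψ (0, t₀)) := by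
      rw [hψ0]; exact e.continuousAt_symm hy₀t
    exact ContinuousAt.comp (f := ψ) this hψs.continuousAt
  · rw [hL]; rfl
  · have hψc : ContinuousAt ψ ((0 : EE n), t₀) := hψs.continuousAt
    have h8 : ∀ᶠ z in 𝓝 ((0 : EE n), t₀), ψ z ∈ e.target := by
      apply hψc.eventually
      rw [hψ0]; exact e.open_target.mem_nhds hy₀t
    have h9 : ∀ᶠ z in 𝓝 ((0 : EE n), t₀), z.2 < 0 := by
      have : ContinuousAt (fun z : EE n × ℝ => z.2) ((0 : EE n), t₀) := continuousAt_snd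
      exact this.eventually (Iio_mem_nhds ht₀)
    filter_upwards [hev, h8, h9] with z hz hz1 hz2
    obtain ⟨a1, a2, a3, a4⟩ := hz
    have hs : e.symm (ψ z) ∈ e.source := e.map_target hz1
    obtain ⟨-, b2, b3, b4, -⟩ := hI3 n N M F hF p₀ (e.symm (ψ z)) z.2 hz2 hs
    have h7 : (chartAt (EE n) p₀) (e.symm (ψ z)) = ψ z := e.right_inv hz1
    rw [h7] at b2 b3 b4
    exact ⟨a1.symm, b2.trans a2.symm, b3.trans a3.symm, b4.trans a4.symm⟩

end Helper35.PI
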