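import Pool.Agent.Helper35.PI.St3

namespace Helper35.PI

open scoped ContDiff Manifold Topology ENNReal BigOperators
open MeasureTheory Set Filter

theorem hSC1 (_hSM : StSM) (hI2 : StI2) (hI3 : StI3) : StSC1 := by
  intro n N _hn M _ _ _ F hF q τ hτ
  set e := chartAt (EE n) q with he
  set f : EE n × ℝ → EE N := fun z => F (e.symm z.1) z.2 with hf
  set y₀ : EE n := e q with hy₀
  have hsm := hI2 n N M F hF q
  have hopen : IsOpen (e.target ×ˢ Iio (0 : ℝ)) := e.open_target.prod isOpen_Iio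
  have hy₀t : y₀ ∈ e.target := e.map_source (mem_chart_source (EE n) q)
  have hmem : (y₀, τ) ∈ e.target ×ˢ Iio (0 : ℝ) := ⟨hy₀t, hτ⟩
  have hfat : ∀ z ∈ e.target ×ˢ Iio (0 : ℝ), ContDiffAt ℝ ∞ f z := fun z hz =>
    (hsm z hz).contDiffAt (hopen.mem_nhds hz)
  set D : EE n × ℝ → (EE n →L[ℝ] EE N) := fun z =>
    (fderiv ℝ f z).comp (ContinuousLinearMap.inl ℝ (EE n) ℝ) with hD
  have hder : ∀ y t, (y, t) ∈ e.target ×ˢ Iio (0 : ℝ) →
      HasFDerivAt (fun y => f (y, t)) (D (y, t)) y := by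
    intro y t hz
    have h2 : HasFDerivAt f (fderiv ℝ f (y, t)) (y, t) :=
      ((hfat _ hz).differentiableAt (by simp)).hasFDerivAt
    exact HasFDerivAt.comp (f := fun y : EE n => ((y, t) : EE n × ℝ)) y h2
      (hasFDerivAt_prodMk_left y t)
  have hdv : ∀ y t, (y, t) ∈ e.target ×ˢ Iio (0 : ℝ) → ∀ i,
      dv1 (loc (n := n) F q t) y i = D (y, t) (ee i) := by
    intro y t hz i
    unfold dv1
    rw [show loc (n := n) F q t = fun y => f (y, t) from rfl, (hder y t hz).fderiv]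
  have hcont : ContinuousAt D (y₀, τ) := by
    have h1 : ContinuousAt (fderiv ℝ f) (y₀, τ) :=
      ((hfat _ hmem).fderiv_right (m := 0) (by simp)).continuousAt
    exact h1.clm_comp continuousAt_const
  -- injectivity of D₀
  have hspan : ∀ (w : EE n), w = ∑ i, w i • (ee i : EE n) := by
    intro w
    ext j
    simp [ee, Pi.single_apply]
  have hinj : ∀ w : EE n, D (y₀, τ) w = 0 → w = 0 := by
    intro w hw
    have hLI : LinearIndependent ℝ (fun i : Fin n => dv1 (loc (n := n) F q τ) y₀ i) :=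
      hF.imm q τ hτ
    have h1 : ∑ i, w i • dv1 (loc (n := n) F q τ) y₀ i = 0 := by
      rw [← hw]
      conv_rhs => rw [hspan w]
      rw [map_sum]
      refine Finset.sum_congr rfl fun i _ => ?_
      rw [map_smul, hdv y₀ τ hmem i]
    have h2 := Fintype.linearIndependent_iff.1 hLI (fun i => w i) h1
    ext i
    simpa using h2 i
  obtain ⟨c, hc, hlow⟩ : ∃ c > 0, ∀ w : EE n, c * ‖w‖ ≤ ‖D (y₀, τ) w‖ := by
    have hker : LinearMap.ker (D (y₀, τ)).toLinearMap = ⊥ := by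
      rw [LinearMap.ker_eq_bot']
      intro w hw
      exact hinj w hw
    obtain ⟨K, hK, hA⟩ := (D (y₀, τ)).toLinearMap.exists_antilipschitzWith hker
    refine ⟨(K : ℝ)⁻¹, by positivity, fun w => ?_⟩
    have := hA.le_mul_dist w 0
    simp only [dist_zero_right, map_zero] at this
    have h3 : ‖w‖ ≤ (K : ℝ) * ‖D (y₀, τ) w‖ := by simpa using this
    have hKp : (0 : ℝ) < K := by exact_mod_cast hK
    rw [inv_mul_le_iff₀ hKp]
    exact h3
  have hev : ∀ᶠ z in 𝓝 (y₀, τ), z ∈ e.target ×ˢ Iio (0 : ℝ) ∧ ‖D z - D (y₀, τ)‖ < c / 8 := by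
    refine Filter.Eventually.and (hopen.mem_nhds hmem) ?_
    have h1 : ContinuousAt (fun z => ‖D z - D (y₀, τ)‖) (y₀, τ) :=
      (hcont.sub continuousAt_const).norm
    have h2 : ‖D (y₀, τ) - D (y₀, τ)‖ < c / 8 := by simp [hc]
    exact h1.eventually (Iio_mem_nhds h2)
  obtain ⟨ρ, hρ, hball⟩ := Metric.eventually_nhds_iff.1 hev
  have hzz : ∀ y ∈ Metric.closedBall y₀ (ρ / 2), ∀ t ∈ Icc (τ - ρ / 2) (τ + ρ / 2),
      (y, t) ∈ e.target ×ˢ Iio (0 : ℝ) ∧ ‖D (y, t) - D (y₀, τ)‖ < c / 8 := by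
    intro y hy t ht
    apply hball
    rw [Prod.dist_eq, max_lt_iff]
    refine ⟨lt_of_le_of_lt (Metric.mem_closedBall.1 hy) (by linarith), ?_⟩
    rw [Real.dist_eq, abs_lt]
    constructor <;> linarith [ht.1, ht.2]
  refine ⟨ρ / 2, ρ / 2, c / 2, by linarith, by linarith, ?_, by linarith, ?_, ?_⟩
  · have := (hzz y₀ (Metric.mem_closedBall_self (by linarith)) (τ + ρ / 2)
      ⟨by linarith, le_refl _⟩).1.2
    exact this
  · intro y hy
    exact (hzz y hy τ ⟨by linarith, by linarith⟩).1.1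
  · intro t ht y hy y' hy'
    have hmv : ‖f (y, t) - f (y', t) - D (y₀, τ) (y - y')‖ ≤ c / 8 * ‖y - y'‖ := by
      refine Convex.norm_image_sub_le_of_norm_hasFDerivWithin_le' (𝕜 := ℝ)
        (f := fun y => f (y, t)) (f' := fun y => D (y, t)) (φ := D (y₀, τ))
        (s := Metric.closedBall y₀ (ρ / 2)) ?_ ?_ (convex_closedBall _ _) hy' hy
      · intro x hx
        exact (hder x t (hzz x hx t ht).1).hasFDerivWithinAt
      · intro x hx
        exact (hzz x hx t ht).2.le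
    have hl := hlow (y - y')
    have htri : ‖D (y₀, τ) (y - y')‖ ≤ ‖f (y, t) - f (y', t)‖ + c / 8 * ‖y - y'‖ := by
      have h1 : D (y₀, τ) (y - y')
          = (f (y, t) - f (y', t)) - (f (y, t) - f (y', t) - D (y₀, τ) (y - y')) := by abel
      calc ‖D (y₀, τ) (y - y')‖ = ‖(f (y, t) - f (y', t))
            - (f (y, t) - f (y', t) - D (y₀, τ) (y - y'))‖ := by rw [← h1]
        _ ≤ ‖f (y, t) - f (y', t)‖ + ‖f (y, t) - f (y', t) - D (y₀, τ) (y - y')‖ :=
            norm_sub_le _ _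
        _ ≤ _ := by linarith
    have hn0 : 0 ≤ ‖y - y'‖ := norm_nonneg _
    have hlow2 : 7 / 8 * c * ‖y - y'‖ ≤ ‖f (y, t) - f (y', t)‖ := by nlinarith
    refine ⟨by nlinarith, ?_⟩
    intro v hv hv1
    have hyz := (hzz y hy t ht)
    have hs : e.symm y ∈ e.source := e.map_target hyz.1.1
    obtain ⟨-, -, -, -, hTS⟩ := hI3 n N M F hF q (e.symm y) t hyz.1.2 hs
    have hey : (chartAt (EE n) q) (e.symm y) = y := e.right_inv hyz.1.1
    rw [hey] at hTS
    have hperp : ∀ w : EE n, (inner ℝ (D (y, t) w) v : ℝ) = 0 := by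
      intro w
      have hm : D (y, t) w ∈ TS (n := n) F (e.symm y) t := by
        rw [hTS]
        have hw2 : D (y, t) w = ∑ i, D (y, t) (w i • (ee i : EE n)) := by
          rw [← map_sum, ← hspan w]
        rw [hw2]
        refine Submodule.sum_mem _ fun i _ => ?_
        rw [map_smul, ← hdv y t hyz.1 i]
        exact Submodule.smul_mem _ _ (Submodule.subset_span ⟨i, rfl⟩)
      exact (Submodule.mem_orthogonal _ _).1 hv _ hm
    have hin : (inner ℝ (f (y, t) - f (y', t)) v : ℝ)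
        = inner ℝ (f (y, t) - f (y', t) - D (y₀, τ) (y - y')) v
          + inner ℝ ((D (y₀, τ) - D (y, t)) (y - y')) v := by
      rw [← inner_add_left]
      have : f (y, t) - f (y', t) - D (y₀, τ) (y - y') + (D (y₀, τ) - D (y, t)) (y - y')
          = (f (y, t) - f (y', t)) - D (y, t) (y - y') := by
        rw [sub_apply]; abel
      rw [this]
      generalize f (y, t) - f (y', t) = g0
      rw [inner_sub_left, hperp, sub_zero]
    have hb1 : |(inner ℝ (f (y, t) - f (y', t) - D (y₀, τ) (y - y')) v : ℝ)|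
        ≤ c / 8 * ‖y - y'‖ := by
      refine (abs_real_inner_le_norm _ _).trans ?_
      rw [hv1, mul_one]; exact hmv
    have hb2 : |(inner ℝ ((D (y₀, τ) - D (y, t)) (y - y')) v : ℝ)| ≤ c / 8 * ‖y - y'‖ := by
      refine (abs_real_inner_le_norm _ _).trans ?_
      rw [hv1, mul_one]
      refine (ContinuousLinearMap.le_opNorm _ _).trans ?_
      rw [norm_sub_rev]
      exact mul_le_mul_of_nonneg_right hyz.2.le hn0
    have hb : |(inner ℝ (f (y, t) - f (y', t)) v : ℝ)| ≤ 2 / 7 * ‖f (y, t) - f (y', t)‖ := by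
      rw [hin]
      refine (abs_add_le _ _).trans ?_
      nlinarith
    have hsq := sq_le_sq' (by linarith [abs_nonneg (inner ℝ (f (y, t) - f (y', t)) v : ℝ)]) hb
    have habs : |(inner ℝ (f (y, t) - f (y', t)) v : ℝ)| ^ 2
        = (inner ℝ (f (y, t) - f (y', t)) v : ℝ) ^ 2 := sq_abs _
    show (inner ℝ (f (y, t) - f (y', t)) v : ℝ) ^ 2 ≤ ‖f (y, t) - f (y', t)‖ ^ 2 / 2
    nlinarith [sq_nonneg ‖f (y, t) - f (y', t)‖]

end Helper35.PI
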