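import Pool.Agent.Helper35.PI.St4
import Pool.Agent.Helper29.PI.M_LL1
import Pool.Agent.Helper67.PI.M_LL2
import Pool.Agent.Helper8.PI.M_LL3
import Pool.Agent.Helper62.PI.M_LL4
import Pool.Agent.Helper71.PI.M_LLA
import Pool.Agent.Helper51.PI.M_QP
import Pool.Agent.Helper4.PI.M_LOSS
import Pool.Agent.Helper84.PI.M_RS
import Pool.Agent.Helper14.PI.M_R1
import Pool.Agent.Helper80.PI.M_R2
import Pool.Agent.Helper95.PI.M_VP
import Pool.Agent.Helper13.PI.M_OP1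
import Pool.Agent.Helper98.PI.M_OP2
import Pool.Agent.Helper90.PI.M_OP3
import Pool.Agent.Helper76.PI.M_SI
import Pool.Agent.Helper36.PI.M_KI
import Pool.Agent.Helper79.PI.M_E1
import Pool.Agent.Helper7.PI.M_E2
import Pool.Agent.Helper60.PI.M_E3
import Pool.Agent.Helper63.PI.M_E4
import Pool.Agent.Helper91.PI.M_E5
import Pool.Agent.Helper61.PI.M_JA
import Pool.Agent.Helper60.PI.M_JB
import Pool.Agent.Helper68.PI.M_JD
import Pool.Agent.Helper7.PI.M_MP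
import Pool.Agent.Helper80.PI.M_FR
import Pool.Agent.Helper89.PI.M_NR
import Pool.Agent.Helper48.PI.M_SM
import Pool.Agent.Helper28.PI.M_G0
import Pool.Agent.Helper36.PI.M_G1
import Pool.Agent.Helper90.PI.M_G2
import Pool.Agent.Helper4.PI.M_G3
import Pool.Agent.Helper2.PI.M_G4
import Pool.Agent.Helper39.PI.M_G5
import Pool.Agent.Helper84.PI.M_G6
import Pool.Agent.Helper78.PI.M_G7
import Pool.Agent.Helper62.PI.M_G8
import Pool.Agent.Helper76.PI.M_G9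
import Pool.Agent.Helper94.PI.M_G10
import Pool.Agent.Helper67.PI.M_I1
import Pool.Agent.Helper35.PI.M_I2
import Pool.Agent.Helper91.PI.M_I3
import Pool.Agent.Helper75.PI.M_I4
import Pool.Agent.Helper2.PI.M_C1
import Pool.Agent.Helper95.PI.M_C2
import Pool.Agent.Helper92.PI.M_C3
import Pool.Agent.Helper35.PI.M_C4
import Pool.Agent.Helper29.PI.M_MX1
import Pool.Agent.Helper79.PI.M_MX
import Pool.Agent.Helper51.PI.M_PO
import Pool.Agent.Helper99.PI.M_LOCR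
import Pool.Agent.Helper13.PI.M_T3
import Pool.Agent.Helper98.PI.M_SA
import Pool.Agent.Helper23.PI.M_SB
import Pool.Agent.Helper35.PI.M_SC1
import Pool.Agent.Helper68.PI.M_SC
import Pool.Agent.Helper95.PI.M_SMP
import Pool.Agent.Helper31.PI.M_GW
import Pool.Agent.Helper61.PI.M_CZ
import Pool.Agent.Helper80.PI.M_PA
import Pool.Agent.Helper26.PI.M_PB
import Pool.Agent.Helper5.PI.M_PL
import Pool.Agent.Helper84.PI.M_FL
import Pool.Agent.Helper7.PI.M_DP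
import Pool.Agent.Helper31.PI.M_DL
import Pool.Agent.Helper76.PI.M_DE
import Pool.Agent.Helper70.PI.M_DPA
import Pool.Agent.Helper94.PI.M_DC
import Pool.Agent.Helper31.PI.M_DA
import Pool.Agent.Helper43.PI.M_DA2
import Pool.Agent.Helper85.PI.M_DFL
import Pool.Agent.Helper7.PI.M_V1
import Pool.Agent.Helper99.PI.M_V2
import Pool.Agent.Helper72.PI.M_V3
import Pool.Agent.Helper92.PI.M_V4
import Pool.Agent.Helper13.PI.M_V5
import Pool.Agent.Helper51.PI.M_V6a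
import Pool.Agent.Helper67.PI.M_V6
import Pool.Agent.Helper79.PI.M_V7
import Pool.Agent.Helper23.PI.M_V8
import Pool.Agent.Helper80.PI.M_V9
import Pool.Agent.Helper95.PI.M_V10
import Pool.Agent.Helper94.PI.M_V11
import Pool.Agent.Helper61.PI.M_NI
import Pool.Agent.Helper63.PI.M_NUM
import Pool.Agent.Helper63.PI.M_MAINR

/-!
Project PI (MP_b2fa09_gt): assembly of the modules.
-/

namespace Helper35.PI.All

open scoped ContDiff Manifold Topology ENNReal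
open MeasureTheory Set Filter

theorem tLL4 : StLL4 := Helper62.PI.hLL4 (Helper8.PI.hLL3 (Helper67.PI.hLL2 Helper29.PI.hLL1))
theorem tLOSS : StLOSS := Helper4.PI.hLOSS Helper51.PI.hQP (Helper71.PI.hLLA tLL4)
theorem tR2 : StR2 := Helper80.PI.hR2 tLOSS Helper84.PI.hRS
theorem tR1 : StR1 := Helper14.PI.hR1 Helper95.PI.hVP Helper13.PI.hOP1
  (Helper98.PI.hOP2 Helper13.PI.hOP1) Helper90.PI.hOP3 Helper76.PI.hSI
theorem tKI : StKI := Helper36.PI.hKI

theorem tJA : StJA := Helper61.PI.hJA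
theorem tJB : StJB := Helper60.PI.hJB tJA
theorem tJD : StJD := Helper68.PI.hJD tJA tJB
theorem tMP : StMP := Helper7.PI.hMP
theorem tFR : StFR := Helper80.PI.hFR
theorem tNR : StNR := Helper89.PI.hNR
theorem tSM : StSM := Helper48.PI.hSM
theorem tG1 : StG1 := Helper36.PI.hG1
theorem tG2 : StG2 := Helper90.PI.hG2
theorem tG0 : StG0 := Helper28.PI.hG0 tSM tG2 tJA tJB
theorem tG3 : StG3 := Helper4.PI.hG3 tG0 tG2 tJA tJB
theorem tG4 : StG4 := Helper2.PI.hG4 tG0 tG2 tG3 tG1 tJA tJB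
theorem tG5 : StG5 := Helper39.PI.hG5 tG0
theorem tG6 : StG6 := Helper84.PI.hG6 tNR tJA tJB tG0 tG1 tG2 tG3 tG4
theorem tG7 : StG7 := Helper78.PI.hG7 tJA tJB tG1 tG5 tG6
theorem tG8 : StG8 := Helper62.PI.hG8 tJA tJB tG1 tG5 tG6
theorem tG9 : StG9 := Helper76.PI.hG9 tJA tJB tG1 tG5 tG6
theorem tG10 : StG10 := Helper94.PI.hG10 tJA tJB tG2 tG0
theorem tI1 : StI1 := Helper67.PI.hI1 tFR tNR
theorem tI2 : StI2 := Helper35.PI.hI2
theorem tI3 : StI3 := Helper91.PI.hI3 tI1 tI2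
theorem tI4 : StI4 := Helper75.PI.hI4 tSM tI2 tI3
theorem tC1 : StC1 := Helper2.PI.hC1
theorem tC3 : StC3 := Helper92.PI.hC3 tNR tSM tI1
theorem tC4 : StC4 := Helper35.PI.hC4 tSM tI2 tI3 tC1 Helper95.PI.hC2 tC3
theorem tPO : StPO := Helper51.PI.hPO tFR tNR
theorem tMX : StMX := Helper79.PI.hMX tJA tJB tMP tG1 tG7 tG8 tG9 tG10 tC4 tI4
  (Helper29.PI.hMX1 tJA tJB tJD) Helper79.PI.hE1 Helper7.PI.hE2 Helper60.PI.hE3 Helper63.PI.hE4
  Helper91.PI.hE5 tPO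
theorem tLOCR : StLOCR := Helper99.PI.hLOCR tMX tI4 tPO
theorem tSA : StSA := Helper98.PI.hSA Helper13.PI.hT3 tLL4
theorem tSB : StSB := Helper23.PI.hSB tJA tJB tMP tG1 tG7 tG8 tG10 tC4 tSA
theorem tSC1 : StSC1 := Helper35.PI.hSC1 tSM tI2 tI3
theorem tSC : StSC := Helper68.PI.hSC tSB tSC1 tI2 tI3 tI4 tPO
theorem tSMP : StSMP := Helper95.PI.hSMP tSC tPO tI4
theorem tGW : StGW := Helper31.PI.hGW
theorem tCZ : StCZ := Helper61.PI.hCZ tFR tNR
theorem tPA : StPA := Helper80.PI.hPA tGW tCZ tI2 tI3 tSM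
theorem tPB : StPB := Helper26.PI.hPB tGW tI2 tI3 tSM tNR
theorem tPL : StPL := Helper5.PI.hPL tPO tPA tPB tI2 tI3
theorem tFL : StFL := Helper84.PI.hFL tFR tGW tPO tI2 tI3 tSM
theorem tDP : StDP := Helper7.PI.hDP tFR tNR
theorem tDE : StDE := Helper76.PI.hDE tDP tNR tI2 tI3
theorem tDPA : StDPA := Helper70.PI.hDPA tDE Helper31.PI.hDL tDP tI2 tI3
theorem tDC : StDC := Helper94.PI.hDC tDPA tC1 tI4
theorem tDFL : StDFL := Helper85.PI.hDFL tDC Helper31.PI.hDA tI4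
theorem tDA2 : StDA2 := Helper43.PI.hDA2
theorem tV1 : StV1 := Helper7.PI.hV1 tNR tSM
theorem tV2 : StV2 := Helper99.PI.hV2 tNR tFR
theorem tV3 : StV3 := Helper72.PI.hV3 tV2
theorem tV4 : StV4 := Helper92.PI.hV4 tI2 tI3
theorem tV5 : StV5 := Helper13.PI.hV5
theorem tV6a : StV6a := Helper51.PI.hV6a tI2 tI3
theorem tV6 : StV6 := Helper67.PI.hV6 tSM tV3 tV4 tV6a tI2 tI3
theorem tV7 : StV7 := Helper79.PI.hV7 tC1
theorem tV8 : StV8 := Helper23.PI.hV8 tV4 tV7 tI2 tI3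
theorem tV9 : StV9 := Helper80.PI.hV9
theorem tV10 : StV10 := Helper95.PI.hV10 tV1 tI2 tI3 tI4
theorem tV11 : StV11 := Helper94.PI.hV11 tV6 tV6a tI2 tI3 tI4 tNR tFR
theorem tNI : StNI := Helper61.PI.hNI tV5 tV8 tV9 tV10 tV11 tI4 tV1 tI2 tI3
theorem tNUM : StNUM := Helper63.PI.hNUM
theorem tMAINR : StMAINR := Helper63.PI.hMAINR tR1 tR2 tKI tLOCR tSMP tPL tFL tPO tI4 tNUM

/-- The main theorem: pinching with constant `1/n + zn n` forces codimension one. -/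
theorem main (n : ℕ) (hn : 2 ≤ n) : ForcesCodimOne n (1 / n + zn n) := by
  intro N hN M _ _ _ _ _ _ F hF hP
  have hn1 : 1 ≤ n := by omega
  have hcpt : ∀ t R : ℝ, t < 0 → IsCompact {q : M | ‖F q t‖ ≤ R} :=
    tDFL n N hn1 M F ⟨hF.mcf, hF.complete, hF.entropy, hF.growth⟩
  obtain ⟨C, hC, hent⟩ := hF.entropy
  have har : ∀ R : ℝ, ∃ C : ℝ≥0∞, C ≠ ⊤ ∧ ∀ t < 0, ∫⁻ x in Metric.closedBall (0 : EE N) R,
      (((fun q => F q t) ⁻¹' {x}).encard : ℝ≥0∞) ∂μH[(n : ℝ)] ≤ C := fun R =>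
    tDA2 n N M F R C hC hent
  exact tMAINR n hn N hN M F hF.mcf (tNI n N hn1 M F hF.mcf hcpt har) hP

end Helper35.PI.All
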